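import Pool.Agent.Lib.MP_f0c981_al.T4.Key

/-!
Adjoining a central root, in the presence of roots.
-/

set_option autoImplicit false
set_option maxSynthPendingDepth 3

noncomputable section

namespace Pool.Agent.Lib.MP_f0c981_al

variable {A N S R : Type} [Group A] [Group N] [MulAction A S] [MulAction N R]

theorem cj_of_root (π : A →* N) (hs : Function.Surjective π) (g : A) (hc : ∀ a, a * g = g * a)
    (hg : ¬ IsOfFinOrder g) (hπ : π.ker = Subgroup.zpowers g)
    (htf : ∀ a : A, IsOfFinOrder a → a = 1) {p : ℕ} (hp : p.Prime) (r0 : R)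
    (hR : ∀ a : A, a ^ p = g → ∃! r : R, π a • r = r) (s0 : S)
    (hS : ∀ (a : A) (s : S), a • s = s → a = 1) {L : ℕ} (hF : FD (ZMod p) A S L) :
    CJ (ZMod p) N N R (p * L) := by
  classical
  have := Fact.mk hp
  let κ : A × Multiplicative ℤ := (g⁻¹, Multiplicative.ofAdd p)
  have hcomm : ∀ a, Commute a g := hc
  have hκ : ∀ x, Commute x κ := fun x => Prod.ext (hcomm x.1).inv_right (mul_comm _ _)
  let K := Subgroup.zpowers κ
  have hK : ∀ (a : A) (j : ℤ), (a, Multiplicative.ofAdd j) ∈ K ↔ ∃ m : ℤ, g ^ (-m) = a ∧ m * p = j := by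
    intro a j
    simp only [K, Subgroup.mem_zpowers_iff, κ, Prod.pow_mk, Prod.mk.injEq, inv_zpow',
      ← ofAdd_zsmul, EmbeddingLike.apply_eq_iff_eq, smul_eq_mul]
  have : K.Normal := ⟨fun x hx y => by
    obtain ⟨m, rfl⟩ := hx
    rw [((hκ y).zpow_right m).eq, mul_inv_cancel_right]
    exact ⟨m, rfl⟩⟩
  let G := (A × Multiplicative ℤ) ⧸ K
  let mk : A × Multiplicative ℤ →* G := QuotientGroup.mk' K
  have hmk : ∀ (a : A) (j : ℤ), mk (a, Multiplicative.ofAdd j) = 1 ↔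
      ∃ m : ℤ, g ^ (-m) = a ∧ m * p = j := fun a j => (QuotientGroup.eq_one_iff _).trans (hK a j)
  have hsurj : ∀ γ : G, ∃ (a : A) (j : ℤ), γ = mk (a, Multiplicative.ofAdd j) := fun γ => by
    obtain ⟨⟨a, j⟩, rfl⟩ := QuotientGroup.mk'_surjective K γ
    exact ⟨a, j.toAdd, rfl⟩
  have hg0 : ∀ m : ℤ, g ^ m = 1 → m = 0 := fun m h =>
    injective_zpow_iff_not_isOfFinOrder.2 hg (h.trans (zpow_zero g).symm)
  let t : G := mk (1, Multiplicative.ofAdd 1)
  have htz : ∀ j : ℤ, t ^ j = mk (1, Multiplicative.ofAdd j) := fun j => by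
    simp only [t, ← map_zpow, Prod.pow_mk, one_zpow, ← ofAdd_zsmul, smul_eq_mul, mul_one]
  have ht : ¬ IsOfFinOrder t := by
    rw [isOfFinOrder_iff_zpow_eq_one]
    rintro ⟨n, hn, h⟩
    obtain ⟨m, h1, h2⟩ := (hmk _ _).1 ((htz n).symm.trans h)
    have := hg0 _ h1
    apply hn
    rw [← h2, neg_eq_zero.1 this, zero_mul]
  have htc : ∀ γ, γ * t = t * γ := fun γ => by
    obtain ⟨a, j, rfl⟩ := hsurj γ
    simp only [t, ← map_mul, Prod.mk_mul_mk, mul_one, one_mul, mul_comm]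
  let χ : G →* Multiplicative (ZMod p) := QuotientGroup.lift K
    ((Int.castAddHom (ZMod p)).toMultiplicative.comp (MonoidHom.snd _ _))
    (Subgroup.zpowers_le.2 (by simp [κ]))
  let π' : G →* N := QuotientGroup.lift K (π.comp (MonoidHom.fst _ _))
    (Subgroup.zpowers_le.2 (by
      have : π g = 1 := (hπ.ge (Subgroup.mem_zpowers g))
      simp [κ, this]))
  let ι : A →* G := mk.comp (MonoidHom.inl _ _)
  have hι : Function.Injective ι := (injective_iff_map_eq_one ι).2 fun a h => by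
    obtain ⟨m, h1, h2⟩ := (hmk a 0).1 h
    rw [← h1, (mul_eq_zero.1 h2).resolve_right (by exact_mod_cast hp.ne_zero), neg_zero, zpow_zero]
  have hle : χ.ker ≤ ι.range := fun γ h => by
    obtain ⟨a, j, rfl⟩ := hsurj γ
    obtain ⟨m, rfl⟩ := (ZMod.intCast_zmod_eq_zero_iff_dvd j p).1 h
    refine ⟨a * g ^ m, ?_⟩
    have h1 := (hmk (g ^ (-m)) (p * m)).2 ⟨m, rfl, mul_comm _ _⟩
    change mk _ = _
    rw [← mul_one (mk _), ← h1, ← map_mul]
    simp
  have : ι.range.FiniteIndex := Subgroup.finiteIndex_of_le hle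
  have hG1 : ∀ γ : G, IsOfFinOrder γ → χ γ = 1 → γ = 1 := fun γ h q => by
    obtain ⟨a, rfl⟩ := hle q
    rw [htf a (hι.isOfFinOrder_iff.1 h), map_one]
  let := MulAction.compHom R π'
  have hG2 : ∀ γ : G, IsOfFinOrder γ → γ ≠ 1 → ∃! r : R, γ • r = r := fun γ h q0 => by
    have q := mt (hG1 γ h) q0
    obtain ⟨a, j, rfl⟩ := hsurj γ
    obtain ⟨n, hn, h1⟩ := isOfFinOrder_iff_zpow_eq_one.1 h
    rw [← map_zpow, Prod.pow_mk, ← ofAdd_zsmul, hmk] at h1
    obtain ⟨m, h1, h2⟩ := h1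
    have h3 : a ^ (p : ℤ) * g ^ j = 1 := htf _ (isOfFinOrder_iff_zpow_eq_one.2 ⟨n, hn, by
      rw [((hcomm a).zpow_zpow _ _).mul_zpow, ← zpow_mul, mul_comm (p : ℤ), zpow_mul, ← h1,
        ← zpow_mul, ← zpow_mul, ← zpow_add, mul_comm j, ← smul_eq_mul n, ← h2]
      simp⟩)
    obtain ⟨u, v, h4⟩ := ((Nat.prime_iff_prime_int.1 hp).coprime_iff_not_dvd).2
      (mt (ZMod.intCast_zmod_eq_zero_iff_dvd j p).2 q)
    have h5 : π g = 1 := hπ.ge (Subgroup.mem_zpowers g)
    have h6 : π a ^ (p : ℤ) = 1 := by simpa [h5] using congrArg π h3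
    have h7 : π (g ^ u * a ^ (-v)) = π a ^ (-v) := by simp [h5]
    obtain ⟨r, e1, e2⟩ := hR (g ^ u * a ^ (-v)) (by
      rw [← zpow_natCast, ((hcomm a).symm.zpow_zpow _ _).mul_zpow, ← zpow_mul, ← zpow_mul,
        mul_comm (-v), zpow_mul a, eq_inv_of_mul_eq_one_left h3, ← zpow_neg, ← zpow_mul,
        ← zpow_add, neg_mul_neg, mul_comm j, h4, zpow_one])
    rw [h7] at e1 e2
    refine ⟨r, ?_, fun r' e => e2 r' ((MulAction.stabilizer N r').zpow_mem e _)⟩
    have h8 := (MulAction.stabilizer N r).zpow_mem e1 (-j)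
    rwa [← zpow_mul, neg_mul_neg, eq_sub_of_add_eq' h4, zpow_sub, mul_comm u, zpow_mul, h6,
      one_zpow, inv_one, mul_one, zpow_one] at h8
  let e := (MonoidHom.ofInjective hι).symm.toMonoidHom
  let := MulAction.compHom S e
  let := MulAction.compHom N π'
  let := Fintype.ofFinite (G ⧸ ι.range)
  have hm : ∀ (γ : G) (i : G ⧸ ι.range), (γ • i).out⁻¹ * (γ * i.out) ∈ ι.range := fun γ i => by
    rw [← QuotientGroup.eq, QuotientGroup.out_eq', ← smul_eq_mul, MulAction.Quotient.coe_smul_out]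
  have hL := serreJ (R := R) (S' := N) (cliff (ZMod p) G (G ⧸ ι.range))
    (fun γ i => (⟨_, hm γ i⟩ : ι.range)) (fun i => by ext; simp)
    (fun γ δ i => by ext; simp [mul_smul, mul_assoc]) (1 : G) s0
    (fun h s q => (MonoidHom.ofInjective hι).symm.injective ((hS _ s q).trans (map_one _).symm))
    (fun γ i h1 h2 => by
      have := congrArg Subtype.val h2
      simp only [h1, OneMemClass.coe_one, inv_mul_eq_one] at this
      simpa using this) r0 1
    (fun γ h r r' e1 e2 e3 => by_contra fun q => e3 ((hG2 γ h q).unique e1 e2))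
    (fun P hP => by
      by_cases q : ∀ γ ∈ P, γ = 1
      · exact ⟨r0, fun γ hγ => by rw [q γ hγ, one_smul]⟩
      push Not at q
      obtain ⟨γ, h1, h2⟩ := q
      obtain ⟨r, e1, e2⟩ := hG2 γ (hP γ h1) h2
      refine ⟨r, fun δ hδ => e2 _ ?_⟩
      have h3 := hG1 _ (hP _ (P.mul_mem (P.mul_mem h1 hδ) (P.inv_mem (P.mul_mem hδ h1))))
        (by rw [map_mul, map_inv, map_mul, map_mul, mul_comm (χ γ), mul_inv_cancel])
      beta_reduce
      rw [← mul_smul, mul_inv_eq_one.1 h3, mul_smul, e1]) (hF.comp e)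
  obtain ⟨D, d1, d2, d3⟩ := contrJ htc (χ := fun γ => (χ γ).toAdd)
    (fun a b => by simp) ht (Int.cast_one) 1 r0 (fun s => by
      change π 1 * s = s
      simp) (fun γ s q => by
      obtain ⟨a, j, rfl⟩ := hsurj γ
      have h1 : π a = 1 := mul_eq_right.1 q
      obtain ⟨m, rfl⟩ := hπ.le h1
      refine ⟨j + m * p, ?_⟩
      have h1 := (hmk (g ^ (-m)) (m * p)).2 ⟨m, rfl, rfl⟩
      beta_reduce
      rw [htz, ← mul_one (mk (g ^ m, _)), ← h1, ← map_mul]
      simp [ofAdd_add]) (fun r => by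
      change π 1 • r = r
      simp) hL
  refine ⟨D, fun m γ => ?_, d2, fun m hm => d3 m (le_trans (Nat.mul_le_mul_right _ ?_) hm)⟩
  · obtain ⟨a, rfl⟩ := hs γ
    exact d1 m (ι a)
  · rw [← Nat.card_eq_fintype_card, ← Subgroup.index]
    refine (Subgroup.index_antitone hle).trans ?_
    rw [Subgroup.index_ker]
    exact (Subgroup.card_le_card_group _).trans (by simp)

end Pool.Agent.Lib.MP_f0c981_al
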