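import Pool.Agent.Lib.MP_f0c981_al.T4.Van
import Pool.Agent.Lib.MP_f0c981_al.T4.Adj

/-!
Powers of homogeneous two-cocycles, and the comparison of the Euler classes of an element and of
one of its roots.
-/

set_option autoImplicit false

noncomputable section

namespace Pool.Agent.Lib.MP_f0c981_al

open Finsupp

section

variable {S S' : Type} {c c' : S → S → S → ℤ} {b : S → S → ℤ}

/-- The cap product with a homogeneous two-cochain. -/
def c2 (c : S → S → S → ℤ) : Module.End ℤ (B ℤ S) :=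
  linearCombination ℤ fun l => match l with
    | x :: y :: z :: l => c x y z • single (z :: l) 1
    | _ => 0

/-- The cap product with a homogeneous one-cochain. -/
def h2 (b : S → S → ℤ) : Module.End ℤ (B ℤ S) :=
  linearCombination ℤ fun l => match l with
    | x :: y :: l => b x y • single (y :: l) 1
    | _ => 0

/-- The power of the cochain, as a functional. -/
def eu (c : S → S → S → ℤ) (j : ℕ) : B ℤ S →ₗ[ℤ] ℤ := lapply [] ∘ₗ bd ∘ₗ (c2 c ^ j)

lemma c2_single (x y z : S) (l : List S) (r : ℤ) :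
    c2 c (single (x :: y :: z :: l) r) = c x y z • single (z :: l) r := by simp [c2, mul_comm]

lemma h2_single (x y : S) (l : List S) (r : ℤ) :
    h2 b (single (x :: y :: l) r) = b x y • single (y :: l) r := by simp [h2, mul_comm]

lemma c2_cons (x y z : S) (u : B ℤ S) :
    c2 c (cons x (cons y (cons z u))) = c x y z • cons z u := by
  induction u using Finsupp.induction_linear with
  | zero => simp
  | add a b h1 h2 => simp only [map_add, h1, h2, smul_add]
  | single l r => simp only [cons_single, c2_single]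

lemma h2_cons (x y : S) (u : B ℤ S) : h2 b (cons x (cons y u)) = b x y • cons y u := by
  induction u using Finsupp.induction_linear with
  | zero => simp
  | add a b h1 h2 => simp only [map_add, h1, h2, smul_add]
  | single l r => simp only [cons_single, h2_single]

lemma c2_lmap {c' : S' → S' → S' → ℤ} {f : S → S'} (h : ∀ x y z, c' (f x) (f y) (f z) = c x y z)
    (x : B ℤ S) : c2 c' (lmap f x) = lmap f (c2 c x) := by
  refine ext_gr (c2 c' ∘ₗ lmap f) (lmap f ∘ₗ c2 c) (fun n x hx => gr_ext _ _ (fun l _ => ?_) hx) x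
  match l with
  | [] => simp [c2]
  | [a] => simp [c2]
  | [a, b] => simp [c2]
  | a :: b :: c :: l => simp [c2_single, h]

lemma h2_lmap {f : S → S} (h : ∀ x y, b (f x) (f y) = b x y) (x : B ℤ S) :
    h2 b (lmap f x) = lmap f (h2 b x) := by
  refine ext_gr (h2 b ∘ₗ lmap f) (lmap f ∘ₗ h2 b) (fun n x hx => gr_ext _ _ (fun l _ => ?_) hx) x
  match l with
  | [] => simp [h2]
  | [a] => simp [h2]
  | a :: b :: l => simp [h2_single, h]

lemma eu_succ (j : ℕ) (x : B ℤ S) : eu c (j + 1) x = eu c j (c2 c x) := by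
  simp [eu, pow_succ]

lemma eu_lmap {c' : S' → S' → S' → ℤ} {f : S → S'} (h : ∀ x y z, c' (f x) (f y) (f z) = c x y z)
    (j : ℕ) (x : B ℤ S) : eu c' j (lmap f x) = eu c j x := by
  induction j generalizing x with
  | zero =>
    change bd (lmap f x) [] = bd x []
    rw [bd_lmap]
    refine ext_gr (k := ℤ) (M := ℤ) (lapply [] ∘ₗ lmap f) (lapply [])
      (fun n x hx => gr_ext _ _ (fun l _ => ?_) hx) _
    cases l <;> simp
  | succ j ih => rw [eu_succ, eu_succ, c2_lmap h, ih]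

lemma c2_gr {n : ℕ} {x : B ℤ S} (hx : x ∈ gr ℤ S (n + 3)) : c2 c x ∈ gr ℤ S (n + 1) := by
  refine gr_map _ _ (fun l hl => ?_) hx
  match l, hl with
  | a :: b :: c :: l, hl =>
    rw [c2_single]
    exact Submodule.smul_mem _ _ (single_mem_gr (by simpa using hl) _)

lemma h2_gr {n : ℕ} {x : B ℤ S} (hx : x ∈ gr ℤ S (n + 2)) : h2 b x ∈ gr ℤ S (n + 1) := by
  refine gr_map _ _ (fun l hl => ?_) hx
  match l, hl with
  | a :: b :: l, hl =>
    rw [h2_single]
    exact Submodule.smul_mem _ _ (single_mem_gr (by simpa using hl) _)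

lemma c2_bd (hc : ∀ x y z w, c x y z + c x z w = c y z w + c x y w) {n : ℕ} {x : B ℤ S}
    (hx : x ∈ gr ℤ S (n + 4)) : bd (c2 c x) = c2 c (bd x) := by
  refine gr_ext (bd ∘ₗ c2 c) (c2 c ∘ₗ bd) (fun l hl => ?_) hx
  match l, hl with
  | a :: b :: e :: d :: l, _ =>
    simp only [LinearMap.comp_apply]
    rw [c2_single, map_smul, bd_single_cons e, bd_single_cons a, bd_single_cons b,
      bd_single_cons e]
    simp only [map_sub, cons_single, c2_single, c2_cons]
    rw [eq_sub_of_add_eq (hc a b e d)]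
    module

lemma eu_bd (hc : ∀ x y z w, c x y z + c x z w = c y z w + c x y w) (j : ℕ) {x : B ℤ S}
    (hx : x ∈ gr ℤ S (2 * j + 2)) : eu c j (bd x) = 0 := by
  induction j generalizing x with
  | zero => simp [eu, bd_bd]
  | succ j ih => rw [eu_succ, ← c2_bd hc hx, ih (c2_gr hx)]

lemma c2_coh {m : ℤ} (e : ∀ x y z, c' x y z = m * c x y z + (b x y + b y z - b x z)) {n : ℕ}
    {x : B ℤ S} (hx : x ∈ gr ℤ S (n + 3)) : c2 c' x = m • c2 c x + bd (h2 b x) + h2 b (bd x) := by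
  refine gr_ext (c2 c') (m • c2 c + bd ∘ₗ h2 b + h2 b ∘ₗ bd) (fun l hl => ?_) hx
  match l, hl with
  | x :: y :: z :: l, _ =>
    simp only [LinearMap.comp_apply, LinearMap.add_apply, LinearMap.smul_apply]
    rw [c2_single, c2_single, h2_single, map_smul, bd_single_cons x, bd_single_cons y, e]
    simp only [map_sub, cons_single, h2_single, h2_cons]
    module

end

variable {N N' : Type} [Group N] [Group N'] {H : Subgroup N} {c c' : N → N → N → ℤ}
  {b : N → N → ℤ}

lemma eu_coh (hc : ∀ x y z w, c x y z + c x z w = c y z w + c x y w) {m : ℤ}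
    (e : ∀ x y z, c' x y z = m * c x y z + (b x y + b y z - b x z))
    (i1 : ∀ γ ∈ H, ∀ x y z, c (γ * x) (γ * y) (γ * z) = c x y z)
    (i2 : ∀ γ ∈ H, ∀ x y, b (γ * x) (γ * y) = b x y) (j : ℕ) : ∃ Ψ : B ℤ N →ₗ[ℤ] ℤ, Inv H Ψ ∧
      (j = 0 → Ψ = 0) ∧ ∀ x ∈ gr ℤ N (2 * j + 1), eu c' j x = m ^ j * eu c j x + Ψ (bd x) := by
  induction j with
  | zero => exact ⟨0, fun _ _ _ => rfl, fun _ => rfl, fun x _ => by simp [eu]⟩
  | succ j ih =>
    obtain ⟨Ψ, h1, h0, h3⟩ := ih
    refine ⟨m ^ j • eu c j ∘ₗ h2 b + Ψ ∘ₗ c2 c', fun γ hγ x => ?_, by simp, fun x hx => ?_⟩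
    · simp only [LinearMap.add_apply, LinearMap.smul_apply, LinearMap.comp_apply]
      rw [act_apply, h2_lmap (f := (γ • ·)) (i2 γ hγ), eu_lmap (f := (γ • ·)) (i1 γ hγ),
        c2_lmap (c := c') fun x y z => by
        simp only [e, smul_eq_mul, i1 γ hγ, i2 γ hγ], ← act_apply, h1 γ hγ]
    · have h4 : Ψ (bd (c2 c' x)) = Ψ (c2 c' (bd x)) := by
        rcases j with _ | j
        · simp [h0 rfl]
        · rw [c2_bd (fun x y z w => by
            simp only [e]
            linear_combination m * hc x y z w) hx]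
      rw [eu_succ, eu_succ, h3 _ (c2_gr hx), h4, c2_coh e hx, map_add, map_add,
        eu_bd hc j (h2_gr hx)]
      simp only [LinearMap.add_apply, LinearMap.smul_apply, LinearMap.comp_apply, map_smul,
        smul_eq_mul]
      ring

/-- The homogeneous form of a two-cochain. -/
def hom2 (ε : N → N → ℤ) (x y z : N) : ℤ := ε (x⁻¹ * y) (y⁻¹ * z)

lemma c1_eq (ε : N → N → ℤ) : c1 ℤ ε = c2 (hom2 ε) := by
  refine LinearMap.ext (ext_gr _ _ fun n x hx => gr_ext _ _ (fun l _ => ?_) hx)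
  match l with
  | [] => simp [c1, c2]
  | [a] => simp [c1, c2]
  | [a, b] => simp [c1, c2]
  | a :: b :: c :: l => simp [c1_single, c2_single, hom2]

variable {A A' : Type} [Group A] [Group A']

/-- The data of a central extension by an infinite cyclic group, with a section. -/
structure Ce (π : A →* N) (g : A) (s : N → A) (ε : N → N → ℤ) : Prop where
  hc : ∀ a, Commute a g
  hg : ¬ IsOfFinOrder g
  hπ : π.ker = Subgroup.zpowers g
  hs : ∀ x, π (s x) = x
  hε : ∀ x y, s x * s y = g ^ ε x y * s (x * y)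

variable {π : A →* N} {g : A} {s : N → A} {ε : N → N → ℤ}

lemma Ce.lift (h : Ce π g s ε) {a a' : A} (e : π a = π a') : ∃ m : ℤ, a = g ^ m * a' := by
  obtain ⟨m, hm⟩ := h.hπ.le (show π (a * a'⁻¹) = 1 by simp [e])
  exact ⟨m, (eq_mul_inv_iff_mul_eq.1 hm).symm⟩

lemma Ce.πg (h : Ce π g s ε) (m : ℤ) : π (g ^ m) = 1 := h.hπ.ge ⟨m, rfl⟩

lemma Ce.tau (h : Ce π g s ε) : ∃ τ : A → ℤ,
    (∀ (m n : ℤ) (γ a a'), τ ((g ^ m * γ * a)⁻¹ * (g ^ n * γ * a')) = n - m + τ (a⁻¹ * a')) ∧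
    ∀ x y z, hom2 ε (π x) (π y) (π z) = τ (x⁻¹ * z) - τ (x⁻¹ * y) - τ (y⁻¹ * z) := by
  choose τ hτ using fun a => h.lift (h.hs (π a)).symm
  have inj := injective_zpow_iff_not_isOfFinOrder.2 h.hg
  have t1 : ∀ (m : ℤ) a, τ (g ^ m * a) = m + τ a := fun m a => by
    have e := hτ (g ^ m * a)
    rw [map_mul, h.πg, one_mul] at e
    apply inj
    apply mul_right_cancel (b := s (π a))
    beta_reduce
    rw [← e, zpow_add, mul_assoc, ← hτ]
  refine ⟨τ, fun m n γ a a' => ?_, fun x y z => ?_⟩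
  · rw [← t1, sub_eq_neg_add, zpow_add, mul_assoc, mul_assoc, mul_inv_rev,
      ((h.hc _).zpow_right m).inv_right.eq, zpow_neg]
    simp only [mul_assoc]
    rw [← mul_assoc (γ * a)⁻¹, ((h.hc _).zpow_right n).eq]
    simp [mul_assoc]
  · have e := h.hε (π (x⁻¹ * y)) (π (y⁻¹ * z))
    rw [← map_mul, mul_assoc, mul_inv_cancel_left] at e
    have e1 := hτ (x⁻¹ * z)
    have e2 : x⁻¹ * z = x⁻¹ * y * (y⁻¹ * z) := by group
    nth_rw 1 [e2, hτ (x⁻¹ * y), hτ (y⁻¹ * z)] at e1
    rw [mul_assoc, ← mul_assoc (s _), ((h.hc _).zpow_right _).eq, mul_assoc, e, ← mul_assoc,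
      ← mul_assoc, ← zpow_add, ← zpow_add] at e1
    have e3 := inj (mul_right_cancel e1)
    simp only [map_mul, map_inv] at e3
    rw [hom2, ← e3]
    ring

lemma Ce.cocycle (h : Ce π g s ε) (x y z w : N) :
    hom2 ε x y z + hom2 ε x z w = hom2 ε y z w + hom2 ε x y w := by
  obtain ⟨τ, -, e⟩ := h.tau
  rw [← h.hs x, ← h.hs y, ← h.hs z, ← h.hs w, e, e, e, e]
  ring

theorem van_root (h : Ce π g s ε) {π' : A' →* N'} {g' : A'} {s' : N' → A'} {ε' : N' → N' → ℤ}
    (h' : Ce π' g' s' ε') (ι : A' →* A) (hι : Function.Injective ι) {p : ℕ} (hp : p ≠ 0)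
    (hg : ι (g' ^ p) = g) (hH : ∀ γ ∈ H, ∃ a, γ = π (ι a)) {j : ℕ}
    (hv : Van p ⊤ (2 * j + 1) (eu (hom2 ε') j)) : Van p H (2 * j + 1) (eu (hom2 ε) j) := by
  obtain ⟨τ, t1, t2⟩ := h.tau
  obtain ⟨τ', t3, t4⟩ := h'.tau
  obtain ⟨f, hf⟩ : ∃ f : A → A', ∀ a x, f (ι a * x) = a * f x := by
    let := MulAction.compHom A ι
    obtain ⟨r, hr⟩ := exists_triv (G := A') (X := A) ⊥ Set.univ (fun _ _ _ => trivial)
      fun x _ γ e => hι ((mul_eq_right.1 e).trans ι.map_one.symm)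
    refine ⟨r, fun a x => ?_⟩
    have := Subgroup.mem_bot.1 (hr a x trivial)
    rwa [mul_assoc, inv_mul_eq_one] at this
  have key : ∀ a x, ∃ m : ℤ, s (π (ι a) * x) = g ^ m * ι a * s x ∧
      f (s (π (ι a) * x)) = g' ^ (p * m : ℤ) * a * f (s x) := fun a x => by
    obtain ⟨m, e⟩ := h.lift (a := s (π (ι a) * x)) (a' := ι a * s x) (by simp [h.hs])
    refine ⟨m, by rw [e, mul_assoc], ?_⟩
    rw [e, ← hf, map_mul, zpow_mul, zpow_natCast, map_zpow, hg, mul_assoc]
  obtain ⟨Ψ, h1, -, h3⟩ := eu_coh (H := H) (c := hom2 ε) (m := p)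
    (c' := fun x y z => hom2 ε' (π' (f (s x))) (π' (f (s y))) (π' (f (s z))))
    (b := fun x y => p * τ ((s x)⁻¹ * s y) - τ' ((f (s x))⁻¹ * f (s y))) h.cocycle
    (fun x y z => by
      have := t2 (s x) (s y) (s z)
      simp only [h.hs] at this
      rw [t4, this]
      ring) (fun γ _ x y z => by simp [hom2, mul_assoc]) (fun γ hγ x y => by
      obtain ⟨a, rfl⟩ := hH γ hγ
      obtain ⟨m, e1, e2⟩ := key a x
      obtain ⟨n, e3, e4⟩ := key a y
      rw [e2, e4, e1, e3, t1, t3]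
      ring) j
  refine (hv.comap (A := H) (fun x => π' (f (s x))) fun γ hγ => ?_).coh hp h1 fun x hx =>
    (eu_lmap (fun _ _ _ => rfl) j x).trans (h3 x hx)
  obtain ⟨a, rfl⟩ := hH γ hγ
  refine ⟨π' a, fun x => ?_⟩
  obtain ⟨m, -, e⟩ := key a x
  rw [e, map_mul, map_mul, h'.πg, one_mul]

end Pool.Agent.Lib.MP_f0c981_al
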