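import Pool.Agent.Lib.MP_f0c981_al.T4.Cup
import Pool.Agent.Lib.MP_f0c981_al.Defs

/-!
The descent along roots, and the passage to rational homology.
-/

set_option autoImplicit false

noncomputable section

namespace Pool.Agent.Lib.MP_f0c981_al

open Finsupp

variable {A N S : Type} [Group A] [Group N] {π : A →* N} {g : A} {s : N → A} {ε : N → N → ℤ}

theorem van_step [MulAction A S] (h : Ce π g s ε) (htf : ∀ a : A, IsOfFinOrder a → a = 1) {p : ℕ}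
    (hp : p.Prime) (s0 : S) (hS : ∀ (a : A) (s : S), a • s = s → a = 1) {L : ℕ}
    (hF : FD (ZMod p) A S L) {j : ℕ} (hj : p * L + 2 ≤ j)
    (hv : ∀ a, a ^ p = g → ∀ H : Subgroup N, (∀ γ ∈ H, ∃ c, Commute c a ∧ γ = π c) →
      Van p H (2 * j + 1) (eu (hom2 ε) j)) : Van p ⊤ (2 * j + 1) (eu (hom2 ε) j) := by
  have inj := injective_zpow_iff_not_isOfFinOrder.2 h.hg
  have u0 : ∀ a a', a ^ p = g → a' ^ p = g → π a = π a' → a = a' := fun a a' e e' q => by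
    obtain ⟨m, rfl⟩ := h.lift q
    rw [((h.hc _).zpow_right m).symm.mul_pow, e', mul_eq_right, ← zpow_natCast, ← zpow_mul,
      ← zpow_zero g] at e
    rw [(mul_eq_zero.1 (inj e)).resolve_right (by exact_mod_cast hp.ne_zero), zpow_zero, one_mul]
  have u1 : ∀ a c, a ^ p = g → (c * a * c⁻¹) ^ p = g := fun a c e => by
    rw [conj_pow, e, (h.hc c).eq, mul_inv_cancel_right]
  let R : Type := {x : N // ∃ a, a ^ p = g ∧ π a = x}
  let : MulAction N R :=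
    { smul := fun γ x => ⟨γ * x.1 * γ⁻¹, by
        obtain ⟨a, e, q⟩ := x.2
        exact ⟨_, u1 a (s γ) e, by simp [h.hs, q]⟩⟩
      one_smul := fun x => Subtype.ext (show 1 * x.1 * 1⁻¹ = x.1 by simp)
      mul_smul := fun a b x => Subtype.ext
        (show a * b * x.1 * (a * b)⁻¹ = a * (b * x.1 * b⁻¹) * a⁻¹ by group) }
  have u2 : ∀ c a (e : a ^ p = g), π c • (⟨_, a, e, rfl⟩ : R) = ⟨_, a, e, rfl⟩ → Commute c a :=
    fun c a e q => mul_inv_eq_iff_eq_mul.1 (u0 _ _ (u1 a c e) e (by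
      rw [map_mul, map_mul, map_inv]
      exact congrArg Subtype.val q))
  obtain ⟨D, d1, d2, d3⟩ := cj_of_root (R := R ⊕ N) π (fun x => ⟨_, h.hs x⟩) g h.hc h.hg h.hπ htf
    hp (.inr 1) (fun a e => ⟨.inl ⟨_, a, e, rfl⟩, congrArg Sum.inl (Subtype.ext
      (mul_inv_cancel_right _ _)), by
      rintro (⟨_, a', e', rfl⟩ | x) q
      · have := (u2 a a' e' (Sum.inl.inj q)).inv_right.mul_pow p
        rw [inv_pow, e, e', mul_inv_cancel] at this
        obtain rfl := mul_inv_eq_one.1 (htf _ (isOfFinOrder_iff_pow_eq_one.2 ⟨p, hp.pos, this⟩))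
        rfl
      · obtain ⟨m, rfl⟩ := h.hπ.le (mul_eq_right.1 (Sum.inr.inj q))
        rw [← zpow_natCast, ← zpow_mul] at e
        exact absurd (Int.isUnit_iff_natAbs_eq.1 (IsUnit.of_mul_eq_one_right _
          (inj (e.trans (zpow_one g).symm)))) hp.ne_one⟩) s0 hS hF
  obtain ⟨m, hm⟩ : ∃ m, 2 * j + 1 = m + 4 := ⟨2 * j - 3, by omega⟩
  rw [hm] at hv ⊢
  refine van_desc (R := R ⊕ N) hp.ne_zero (.inr 1) ⟨D, d1, d2, fun i hi => d3 i (by omega)⟩
    (fun γ _ => eu_lmap (f := (γ • ·)) (fun x y z => by simp [hom2, mul_assoc]) j) ?_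
  rintro (⟨_, a, e, rfl⟩ | x)
  · exact hv a e _ fun γ q => ⟨s γ, u2 _ a e (by rw [h.hs]; exact Sum.inl.inj q), (h.hs γ).symm⟩
  · exact van_triv (fun γ q => mul_eq_right.1 (Sum.inr.inj q)) fun y hy =>
      eu_bd h.cocycle j (by convert hy using 2; omega)

lemma euler_zero' {p : ℕ} (hp : p.Prime) {j : ℕ} (h : Van p ⊤ (2 * (j + 1) + 1)
    (eu (hom2 ε) (j + 1))) {z : B ℚ N} (hz : z ∈ gr ℚ N (2 * (j + 1) + 1))
    (hc : ∀ Ψ : B ℚ N →ₗ[ℚ] ℚ, Inv ⊤ Ψ → Ψ (bd z) = 0) : bd ((c1 ℚ ε ^ (j + 1)) z) [] = 0 := by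
  obtain ⟨m, m0, y, y1, y2⟩ := clear_denom hz
  have h0 : ∀ Ψ : B ℤ N →ₗ[ℤ] ℤ, Inv ⊤ Ψ → Ψ (bd y) = 0 := fun Ψ hΨ => by
    let Ψ' : B ℚ N →ₗ[ℚ] ℚ := linearCombination ℚ fun l => (Ψ (single l 1) : ℚ)
    have h1 : ∀ x, (Ψ x : ℚ) = Ψ' (red (Int.castRingHom ℚ) x) := fun x => by
      induction x using Finsupp.induction_linear with
      | zero => simp
      | add a b h1 h2 => simp only [map_add, Int.cast_add, h1, h2]
      | single l r =>
        rw [← smul_single_one l r, Ψ.map_smul]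
        simp [Ψ']
    have h2 := h1 (bd y)
    rw [red_bd, y2, map_smul, map_smul, hc Ψ' (inv_of_single fun γ _ l => by
      simp only [Ψ', linearCombination_single]
      rw [← act_single, hΨ γ trivial]), smul_zero] at h2
    exact_mod_cast h2
  obtain ⟨pr, p1, p2, p3⟩ := exists_pr (k := ℤ) (G := N) (S := N) (2 * j + 1 + 1)
  let ν : B ℤ N →ₗ[ℤ] B ℤ N := linearCombination ℤ fun l => act ℤ N N (l.headD 1)⁻¹ (single l 1)
  have h1 : ν (bd y) = 0 := Finsupp.ext fun l => by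
    rw [← p2 _ (bd_gr y1)]
    refine h0 (lapply l ∘ₗ ν ∘ₗ pr) fun γ _ x => ?_
    simp only [LinearMap.comp_apply, p3]
    refine congrArg _ (gr_ext (ν ∘ₗ act ℤ N N γ) ν (fun l hl => ?_) (p1 x))
    obtain ⟨a, l, rfl⟩ := List.exists_cons_of_length_eq_add_one hl
    simp [ν, Function.comp_def, mul_assoc]
  have h2 := h (fun _ => y) (fun _ => y1) (fun s => by
    have := gr_map (ν - LinearMap.id) (Rl ⊤ ((p : ℤ) ^ s)) (fun l _ => by
      simpa [ν, -act_single] using Rl_act (Subgroup.mem_top _) _) (bd_gr y1)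
    simpa [h1] using this) fun _ => ⟨0, by simp⟩
  have key : eu (hom2 ε) (j + 1) y = 0 := by
    refine Int.eq_zero_of_dvd_of_natAbs_lt_natAbs (h2 (eu (hom2 ε) (j + 1) y).natAbs) ?_
    rw [Int.natAbs_pow, Int.natAbs_natCast]
    exact Nat.lt_pow_self hp.one_lt
  have h1 : red (Int.castRingHom ℚ) (bd ((c1 ℤ ε ^ (j + 1)) y)) [] = 0 := by
    rw [red_apply, c1_eq]
    exact (congrArg _ key).trans (map_zero _)
  rw [red_bd, cj_red, y2, map_smul, map_smul, Finsupp.smul_apply, smul_eq_zero] at h1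
  exact h1.resolve_left (by exact_mod_cast m0)

lemma cap_null' (hε : IsCocycle ε) {p : ℕ} (hp : p.Prime) {L : ℕ}
    (h : Van p ⊤ (2 * (L + 1) + 1) (eu (hom2 ε) (L + 1))) : ∃ D : B ℚ N →ₗ[ℚ] B ℚ N,
      (∀ γ x, D (act ℚ N N γ x) = act ℚ N N γ (D x)) ∧ ∀ n, ∀ x ∈ gr ℚ N (n + 2 * (L + 1) + 1),
        D x ∈ gr ℚ N (n + 2) ∧ (c1 ℚ ε ^ (L + 1)) x = bd (D x) + D (bd x) := by
  have h' := @euler_zero' N _ ε p hp L h
  set j := L + 1 with hj
  let I : Submodule ℚ (B ℚ N) := Submodule.span ℚ {y | ∃ γ x, y = act ℚ N N γ x - x}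
  obtain ⟨β, hβ⟩ : (lapply [] ∘ₗ bd ∘ₗ (c1 ℚ ε ^ j) : B ℚ N →ₗ[ℚ] ℚ) ∘ₗ
      (gr ℚ N (2 * j + 1)).subtype ∈
      LinearMap.range (I.mkQ ∘ₗ bd ∘ₗ (gr ℚ N (2 * j + 1)).subtype).dualMap := by
    rw [LinearMap.range_dualMap_eq_dualAnnihilator_ker, Submodule.mem_dualAnnihilator]
    intro z hz
    refine h' z.2 fun Ψ hΨ => ?_
    have h1 : I ≤ LinearMap.ker Ψ := Submodule.span_le.2 (by
      rintro _ ⟨γ, x, rfl⟩
      simp [hΨ γ trivial])
    exact h1 ((Submodule.Quotient.mk_eq_zero _).1 hz)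
  let Ψ : B ℚ N →ₗ[ℚ] ℚ := β ∘ₗ I.mkQ
  have Ψ1 : ∀ γ x, Ψ (act ℚ N N γ x) = Ψ x := fun γ x =>
    congrArg β ((Submodule.Quotient.eq _).2 (Submodule.subset_span ⟨γ, x, rfl⟩))
  have Ψ2 : ∀ x ∈ gr ℚ N (2 * j + 1), Ψ (bd x) = bd ((c1 ℚ ε ^ j) x) [] := fun x hx =>
    LinearMap.congr_fun hβ ⟨x, hx⟩
  let D0 : B ℚ N →ₗ[ℚ] B ℚ N := linearCombination ℚ fun l => Ψ (single l 1) • single (l.take 1) 1
  have e0 : ∀ l, D0 (single l 1) = Ψ (single l 1) • single (l.take 1) 1 := fun l => by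
    simp only [D0, linearCombination_single, one_smul]
  have e1 : ∀ y ∈ gr ℚ N (2 * j), bd (D0 y) = single [] (Ψ y) := fun y hy =>
    gr_ext (bd ∘ₗ D0) (lsingle [] ∘ₗ Ψ) (fun l hl => by
      obtain ⟨a, l, rfl⟩ := List.exists_cons_of_length_eq_add_one (n := 2 * L + 1) hl
      simp [e0, bd_single_cons]) hy
  obtain ⟨D, d0, d1, d2, d3⟩ := extend (bar ℚ N N) (bar ℚ N N) ⊥
    (fun γ hγ x => by rw [Subgroup.mem_bot.1 hγ, map_one]; rfl) (2 * j) 1
    (fun i => bar_proj ⊥ (fun γ hγ s => by rw [Subgroup.mem_bot.1 hγ, one_smul])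
      (fun γ s h => by simpa using h) _) (bar_exact 1) (-1) (fun _ => c1 ℚ ε ^ j)
    (fun i γ x _ => cj_act j γ x)
    (fun i x hx => by
      rw [add_comm (2 * j)] at hx
      rw [add_comm]
      exact cj_gr j hx)
    (fun i x hx => by
      rw [show 2 * j + (i + 1) + 1 = i + 2 * j + 2 by ring] at hx
      simp [cj_bd hε j hx])
    D0 (fun γ x hx => gr_ext (D0 ∘ₗ act ℚ N N γ) (act ℚ N N γ ∘ₗ D0) (fun l _ => by
      simp only [LinearMap.comp_apply, act_single, e0, map_smul, List.map_take]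
      rw [← act_single, Ψ1]) hx)
    (fun x hx => gr_map _ _ (fun l hl => by
      rw [e0]
      exact Submodule.smul_mem _ _ (single_mem_gr (by simp [hl]; omega) _)) hx)
    (fun x hx => by
      have a1 := gr_zero_eq (bd_gr (cj_gr (ε := ε) j (n := 0) (by simpa using hx)))
      simp only [bar_d, map_add, map_smul, e1 _ (bd_gr hx), Ψ2 x hx, ← a1]
      simp)
  simp only [bar_d, bar_ρ, bar_gr] at d1 d2 d3
  obtain ⟨g, hg⟩ := glue fun n => if 2 * j ≤ n then D (n - 2 * j) else 0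
  have hg' : ∀ i, ∀ x ∈ gr ℚ N (2 * j + i), g x = D i x := fun i x hx => by
    rw [hg _ x hx, if_pos (by omega), Nat.add_sub_cancel_left]
  refine ⟨g, fun γ => ext_gr (g ∘ₗ act ℚ N N γ) (act ℚ N N γ ∘ₗ g) fun n x hx => ?_,
    fun n x hx => ?_⟩
  · simp only [LinearMap.comp_apply]
    by_cases q : 2 * j ≤ n
    · obtain ⟨i, rfl⟩ := Nat.exists_eq_add_of_le q
      rw [hg' i x hx, hg' i _ (act_gr γ hx), d1 i γ x hx]
    · rw [hg n x hx, hg n _ (act_gr γ hx), if_neg q]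
      simp
  · rw [add_comm n] at hx
    rw [hg' (n + 1) x hx, hg' n _ (bd_gr hx), d3 n x hx]
    refine ⟨?_, by simp⟩
    have := d2 (n + 1) x hx
    rwa [add_comm] at this

theorem lim_zero' (hε : IsCocycle ε) {p : ℕ} (hp : p.Prime) {L : ℕ}
    (h : Van p ⊤ (2 * (L + 1) + 1) (eu (hom2 ε) (L + 1))) (n : ℕ)
    (x : ∀ j, groupHomology (QQ N) (n + 2 * j))
    (hx : ∀ j, capH hε (n + 2 * j) (x (j + 1)) = x j) (i : ℕ) : x i = 0 := by
  obtain ⟨D, d1, d2⟩ := cap_null' hε hp h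
  generalize L + 1 = j at d2
  have h1 : ∀ i j y, Reps _ (x (i + j)) y → Reps _ (x i) ((c1 ℚ ε ^ j) y) := fun i j => by
    induction j with
    | zero => exact fun y h => h
    | succ j ih => exact fun y h => ih _ (hx (i + j) ▸ Reps.cap hε h)
  obtain ⟨y, hy⟩ := exists_reps _ (x (i + 1 + j))
  obtain ⟨h2, h3⟩ := d2 (n + 2 * (i + 1)) y (by convert hy.1 using 2; ring)
  have h4 := hy.cycle (by omega) (ka (n + 2 * (i + 1)) ∘ₗ D) fun γ y hy => by
    rw [LinearMap.comp_apply, d1]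
    exact ka_act γ (d2 (n + 2 * i + 1) y (by convert hy using 2; ring)).1
  rw [← hx i, (h1 _ _ _ hy).zero h2 (by rw [h3, map_add, add_eq_left]; exact h4), map_zero]

variable {Γ : Type} [Group Γ]

lemma ce_of {g : Γ} (hg : ¬ IsOfFinOrder g) {s : NG g → Cent g}
    (hs : ∀ x, (QuotientGroup.mk (s x) : NG g) = x) {ε : NG g → NG g → ℤ}
    (hε : ∀ x y, s x * s y = gc g ^ ε x y * s (x * y)) : Ce (QuotientGroup.mk' _) (gc g) s ε :=
  ⟨gc_comm g, fun h => hg ((Cent g).subtype.isOfFinOrder h), QuotientGroup.ker_mk' _, hs, hε⟩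

theorem exists_root (htf : ∀ a : Γ, IsOfFinOrder a → a = 1) {p : ℕ} (hp : p.Prime) {L : ℕ}
    (hF : FD (ZMod p) Γ Γ L) {j : ℕ} (hj : p * L + 2 ≤ j) {g : Γ} {s : NG g → Cent g}
    {ε : NG g → NG g → ℤ} (h : Ce (QuotientGroup.mk' _) (gc g) s ε)
    (hv : ¬ Van p ⊤ (2 * j + 1) (eu (hom2 ε) j)) : ∃ r : Γ, r ^ p = g ∧
      ∃ (s' : NG r → Cent r) (ε' : NG r → NG r → ℤ), Ce (QuotientGroup.mk' _) (gc r) s' ε' ∧ ¬ Van p ⊤ (2 * j + 1) (eu (hom2 ε') j) := by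
  by_contra q
  push Not at q
  let := MulAction.compHom Γ (Cent g).subtype
  refine hv (van_step h (fun a e => Subtype.ext (htf _ ((Cent g).subtype.isOfFinOrder e))) hp
    (1 : Γ) (fun a s e => Subtype.ext (mul_eq_right.1 e)) (hF.comp (Cent g).subtype) hj
    fun a e H hH => ?_)
  have e1 : a.1 ^ p = g := congrArg Subtype.val e
  have hle : Cent a.1 ≤ Cent g := fun x hx => Subgroup.mem_centralizer_singleton_iff.2
    (e1 ▸ Commute.pow_right (Subgroup.mem_centralizer_singleton_iff.1 hx) p)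
  have h1 : ∀ x y : NG a.1, ∃ m : ℤ, x.out * y.out = gc a.1 ^ m * (x * y).out := fun x y => by
    obtain ⟨m, hm⟩ : x.out * y.out * (x * y).out⁻¹ ∈ Subgroup.zpowers (gc a.1) := by
      rw [← QuotientGroup.eq_one_iff]
      simp
    exact ⟨m, eq_mul_of_mul_inv_eq hm.symm⟩
  choose ε' hε' using h1
  have h' := ce_of (fun w => h.hg (e ▸ ((Cent g).subtype_injective.isOfFinOrder_iff.1 w).pow))
    QuotientGroup.out_eq' hε'
  refine van_root h h' (Subgroup.inclusion hle) (Subgroup.inclusion_injective hle) hp.ne_zero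
    (Subtype.ext e1) (fun γ hγ => ?_) (q _ e1 _ _ h')
  obtain ⟨c, c1, rfl⟩ := hH γ hγ
  exact ⟨⟨c.1, Subgroup.mem_centralizer_singleton_iff.2 (congrArg Subtype.val c1.eq)⟩, rfl⟩

open CategoryTheory Limits in
theorem bp_of_noTower (P : ProjectiveResolution (Rep.trivial ℤ Γ ℤ)) (d : ℕ)
    (hP : ∀ n, d < n → IsZero (P.complex.X n)) (g : Γ) (hg : ¬ IsOfFinOrder g) (p : ℕ)
    (hp : p.Prime) (hr : ¬ ∃ r : ℕ → Γ, r 0 = g ∧ ∀ i, r (i + 1) ^ p = r i) : BPAt g hg := by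
  intro s hs ε hε n x hx
  have hF := (FD_of_resolution P d hP).base (Int.castRingHom (ZMod p))
  refine lim_zero' _ hp (L := p * (d + 1) + 1) (by_contra fun hv => hr ?_) n x hx
  let Bad : Γ → Prop := fun r => ∃ (s : NG r → Cent r) (ε : NG r → NG r → ℤ),
    Ce (QuotientGroup.mk' _) (gc r) s ε ∧ ¬ Van p ⊤ (2 * (p * (d + 1) + 1 + 1) + 1)
      (eu (hom2 ε) (p * (d + 1) + 1 + 1))
  have h1 : ∀ r : {r // Bad r}, ∃ r' : {r // Bad r}, r'.1 ^ p = r.1 := by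
    rintro ⟨r, s, ε, h, hv⟩
    obtain ⟨r', e, h'⟩ := exists_root (fun a => torsionFree P d hP) hp hF le_rfl h hv
    exact ⟨⟨r', h'⟩, e⟩
  choose F hF using h1
  exact ⟨fun i => (F^[i] ⟨g, s, ε, ce_of hg hs hε, hv⟩).1, rfl, fun i => by
    simp only [Function.iterate_succ_apply', hF]⟩

end Pool.Agent.Lib.MP_f0c981_al
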