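import Pool.Agent.Lib.MP_f0c981_al.Root

/-!
Complexes with coefficients in the augmentation kernel of a permutation module.
-/

set_option autoImplicit false
set_option maxSynthPendingDepth 3

noncomputable section

namespace Pool.Agent.Lib.MP_f0c981_al

open Finsupp

variable {k : Type} [CommRing k] {G : Type} [Group G] {R : Type}
  {M M' : Type} [AddCommGroup M] [Module k M] [AddCommGroup M'] [Module k M']

/-- The sum of the coefficients. -/
def tot : (R →₀ M) →+ M := liftAddHom fun _ => AddMonoidHom.id M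

@[simp] lemma tot_single (r : R) (x : M) : tot (single r x) = x := by simp [tot]

/-- Coefficientwise action of a linear map. -/
def mr (f : M →ₗ[k] M') : (R →₀ M) →ₗ[k] (R →₀ M') := mapRange.linearMap f

@[simp] lemma mr_single (f : M →ₗ[k] M') (r : R) (x : M) : mr f (single r x) = single r (f x) := by
  simp [mr]

@[simp] lemma mr_apply (f : M →ₗ[k] M') (φ : R →₀ M) (r : R) : mr f φ r = f (φ r) := by simp [mr]

lemma tot_mr (f : M →ₗ[k] M') (φ : R →₀ M) : tot (mr f φ) = f (tot φ) := by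
  induction φ using Finsupp.induction_linear with
  | zero => simp
  | add x y h1 h2 => simp only [map_add, h1, h2]
  | single r x => simp

lemma tot_smul (a : k) (φ : R →₀ M) : tot (a • φ) = a • tot φ :=
  (congrArg tot (by ext; simp)).trans (tot_mr (a • (LinearMap.id : M →ₗ[k] M)) φ) |>.trans rfl

lemma R_map {P : Type} [AddCommGroup P] [Module k P] {W : Submodule k M} (f : (R →₀ M) →ₗ[k] P)
    (U : Submodule k P) (h : ∀ r, ∀ x ∈ W, f (single r x) ∈ U) {φ : R →₀ M} (hφ : ∀ r, φ r ∈ W) :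
    f φ ∈ U := by
  rw [← φ.sum_single, map_finsuppSum]
  exact U.sum_mem fun r _ => h r _ (hφ r)

lemma R_ext {P : Type} [AddCommGroup P] [Module k P] {W : Submodule k M} (f g : (R →₀ M) →ₗ[k] P)
    (h : ∀ r, ∀ x ∈ W, f (single r x) = g (single r x)) {φ : R →₀ M} (hφ : ∀ r, φ r ∈ W) :
    f φ = g φ :=
  sub_eq_zero.1 (R_map (f - g) ⊥ (fun r x hx => by simp [h r x hx]) hφ)

lemma single_R {W : Submodule k M} {x : M} (hx : x ∈ W) (r r' : R) : single r x r' ∈ W := by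
  classical
  rw [single_apply]
  split_ifs
  exacts [hx, W.zero_mem]

lemma tot_mem {W : Submodule k M} {φ : R →₀ M} (hφ : ∀ r, φ r ∈ W) : tot φ ∈ W := by
  rw [← φ.sum_single, map_finsuppSum]
  exact W.sum_mem fun r _ => by simpa using hφ r

/-- Families in `W` with sum zero. -/
def grJ (R : Type) (W : Submodule k M) : Submodule k (R →₀ M) where
  carrier := {φ | (∀ r, φ r ∈ W) ∧ tot φ = 0}
  add_mem' ha hb := ⟨fun r => add_mem (ha.1 r) (hb.1 r), by rw [map_add, ha.2, hb.2, add_zero]⟩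
  zero_mem' := ⟨fun _ => W.zero_mem, map_zero _⟩
  smul_mem' a _ h := ⟨fun r => W.smul_mem a (h.1 r), by rw [tot_smul, h.2, smul_zero]⟩

lemma sub_J {W : Submodule k M} {φ : R →₀ M} (hφ : ∀ r, φ r ∈ W) (r0 : R) :
    φ - single r0 (tot φ) ∈ grJ R W :=
  ⟨fun r => sub_mem (hφ r) (single_R (tot_mem hφ) _ _), by simp⟩

lemma mr_J {W : Submodule k M} {W' : Submodule k M'} {f : M →ₗ[k] M'} (h : ∀ x ∈ W, f x ∈ W')
    {φ : R →₀ M} (hφ : φ ∈ grJ R W) : mr f φ ∈ grJ R W' :=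
  ⟨fun r => h _ (hφ.1 r), by rw [tot_mr, hφ.2, map_zero]⟩

lemma liftJ (r0 : R) (f : M →ₗ[k] M') (W : Submodule k M) {ψ : R →₀ M'}
    (h : ∀ r, ∃ x ∈ W, f x = ψ r) (h0 : tot ψ = 0) : ∃ φ ∈ grJ R W, mr f φ = ψ := by
  classical
  choose u h1 h2 using h
  let φ : R →₀ M := onFinset ψ.support (fun r => if ψ r = 0 then 0 else u r) fun r q => by
    by_contra q'
    exact q (if_pos (notMem_support_iff.1 q'))
  have e : mr f φ = ψ := by
    ext r
    simp only [mr_apply, φ, onFinset_apply]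
    split_ifs with q
    exacts [by rw [q, map_zero], h2 r]
  refine ⟨_, sub_J (φ := φ) (fun r => ?_) r0, ?_⟩
  · simp only [φ, onFinset_apply]
    split_ifs
    exacts [W.zero_mem, h1 r]
  · rw [map_sub, mr_single, ← tot_mr, e, h0, single_zero, sub_zero]

variable [MulAction G R]

/-- The diagonal action. -/
def rhoR (R : Type) [MulAction G R] (ρ : Representation k G M) : Representation k G (R →₀ M) where
  toFun γ := lsum k fun r => lsingle (γ • r) ∘ₗ ρ γ
  map_one' := by ext; simp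
  map_mul' a b := by ext; simp [mul_smul]

@[simp] lemma rhoR_single (ρ : Representation k G M) (γ : G) (r : R) (x : M) :
    rhoR R ρ γ (single r x) = single (γ • r) (ρ γ x) := by simp [rhoR]

lemma rhoR_apply (ρ : Representation k G M) (γ : G) (φ : R →₀ M) (r : R) :
    rhoR R ρ γ φ (γ • r) = ρ γ (φ r) := by
  classical
  induction φ using Finsupp.induction_linear with
  | zero => simp
  | add x y h1 h2 => simp only [map_add, Finsupp.add_apply, h1, h2]
  | single a x => simp [single_apply, apply_ite (ρ γ)]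

lemma tot_rhoR (ρ : Representation k G M) (γ : G) (φ : R →₀ M) :
    tot (rhoR R ρ γ φ) = ρ γ (tot φ) := by
  induction φ using Finsupp.induction_linear with
  | zero => simp
  | add x y h1 h2 => simp only [map_add, h1, h2]
  | single r x => simp

lemma mr_rhoR {ρ : Representation k G M} {ρ' : Representation k G M'} {W : Submodule k M}
    {f : M →ₗ[k] M'} {γ : G} (h : ∀ x ∈ W, f (ρ γ x) = ρ' γ (f x)) {φ : R →₀ M}
    (hφ : ∀ r, φ r ∈ W) : mr f (rhoR R ρ γ φ) = rhoR R ρ' γ (mr f φ) :=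
  R_ext (mr f ∘ₗ rhoR R ρ γ) (rhoR R ρ' γ ∘ₗ mr f) (fun r x hx => by simp [h x hx]) hφ

lemma rhoR_triv {ρ : Representation k G M} {γ : G} (h : ∀ x, ρ γ x = x) (h' : ∀ r : R, γ • r = r)
    (φ : R →₀ M) : rhoR R ρ γ φ = φ :=
  R_ext (W := ⊤) (rhoR R ρ γ) LinearMap.id (fun r x _ => by simp [h, h']) fun _ => trivial

lemma rhoR_J {ρ : Representation k G M} {W : Submodule k M} {γ : G} (h : ∀ x ∈ W, ρ γ x ∈ W)
    {φ : R →₀ M} (hφ : φ ∈ grJ R W) : rhoR R ρ γ φ ∈ grJ R W :=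
  ⟨fun r => by rw [← smul_inv_smul γ r, rhoR_apply]; exact h _ (hφ.1 _),
    by rw [tot_rhoR, hφ.2, map_zero]⟩

/-- The complex with coefficients in the augmentation kernel. -/
def Cx.J (C : Cx k G M) (R : Type) [MulAction G R] : Cx k G (R →₀ M) where
  ρ := rhoR R C.ρ
  d := mr C.d
  gr n := grJ R (C.gr n)
  ρ_d γ _ := mr_rhoR (W := ⊤) (fun x _ => C.ρ_d γ x) fun _ => trivial
  ρ_gr γ n _ hx := rhoR_J (C.ρ_gr γ n) hx
  d_gr n _ hx := mr_J (C.d_gr n) hx
  dd x := by ext; simp [C.dd]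

lemma Cx.Exact.J {C : Cx k G M} (h : C.Exact) (r0 : R) : (C.J R).Exact := fun n _ hy e =>
  liftJ r0 C.d _ (fun r => h n _ (hy.1 r) (DFunLike.congr_fun e r)) hy.2

lemma exists_equiv {X : Type} [MulAction G X] (r0 : R) (X' : Set X)
    (hX : ∀ (γ : G), ∀ x ∈ X', γ • x ∈ X')
    (h : ∀ x ∈ X', ∃ r : R, ∀ γ : G, γ • x = x → γ • r = r) :
    ∃ q : X → R, ∀ (γ : G), ∀ x ∈ X', q (γ • x) = γ • q x := by
  classical
  let o : X → X := fun x => (Quotient.mk (MulAction.orbitRel G X) x).out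
  have ho : ∀ x, ∃ γ : G, γ • o x = x := fun x =>
    (MulAction.orbitRel G X).symm (Quotient.mk_out (s := MulAction.orbitRel G X) x)
  choose g hg using ho
  have : Nonempty R := ⟨r0⟩
  choose! u hu using h
  refine ⟨fun x => g x • u (o x), fun γ x hx => ?_⟩
  have e : o (γ • x) = o x := by
    have : Quotient.mk (MulAction.orbitRel G X) (γ • x) =
        Quotient.mk (MulAction.orbitRel G X) x := Quotient.sound ⟨γ, rfl⟩
    simp only [o, this]
  have h1 : o x ∈ X' := by simpa [inv_smul_eq_iff.2 (hg x).symm] using hX (g x)⁻¹ x hx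
  have h2 := hu _ h1 ((g (γ • x))⁻¹ * γ * g x) (by
    rw [mul_smul, mul_smul, hg, inv_smul_eq_iff, ← e, hg])
  rw [mul_smul, mul_smul, inv_smul_eq_iff] at h2
  beta_reduce
  rw [e, h2]

lemma projJ {P Λ X : Type} [AddCommGroup P] [Module k P] [AddCommGroup Λ] [Module k Λ]
    [Module.Projective k Λ] [MulAction G X] (ρ : Representation k G P) (τ : Representation k G Λ)
    (e : X → Λ →ₗ[k] P) (he : ∀ γ x a, ρ γ (e x a) = e (γ • x) (τ γ a))
    (hc : ∀ (M : Type) [AddCommGroup M] [Module k M] (φ : X → Λ →ₗ[k] M),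
      ∃ θ : P →ₗ[k] M, ∀ x a, θ (e x a) = φ x a)
    (K : Subgroup G) (hKP : ∀ γ ∈ K, ∀ x, ρ γ x = x) (hKR : ∀ γ ∈ K, ∀ r : R, γ • r = r)
    (X' : Set X) (hX : ∀ (γ : G), ∀ x ∈ X', γ • x ∈ X') (q : X → R)
    (hq : ∀ (γ : G), ∀ x ∈ X', q (γ • x) = γ • q x)
    (hK : ∀ x ∈ X', ∀ (γ : G) (r : R), γ • x = x → γ • r = r → r ≠ q x → γ ∈ K) :
    Proj (rhoR R ρ) K (grJ R (Submodule.span k {y | ∃ x ∈ X', ∃ a, y = e x a})) := by
  classical
  let Y : SubMulAction G (X × R) :=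
    { carrier := {z | z.1 ∈ X' ∧ z.2 ≠ q z.1}
      smul_mem' := fun γ z h => ⟨hX γ _ h.1, fun w => h.2 (MulAction.injective γ
        (w.trans (hq γ _ h.1)))⟩ }
  let e' : Y → Λ →ₗ[k] (R →₀ P) := fun z => (lsingle z.1.2 - lsingle (q z.1.1)) ∘ₗ e z.1.1
  have key := proj_of_basis (X := Y) (rhoR R ρ) τ e' (fun γ z a => by
      simp [e', he, hq γ _ z.2.1]) (fun M _ _ φ => by
      choose θ hθ using fun r => hc M fun x => if h : (x, r) ∈ Y then φ ⟨_, h⟩ else 0
      refine ⟨lsum k θ, fun z a => ?_⟩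
      have : (z.1.1, q z.1.1) ∉ Y := fun h => h.2 rfl
      simp only [e', LinearMap.comp_apply, LinearMap.sub_apply, lsingle_apply, map_sub,
        lsum_single, hθ, dif_neg this, dif_pos (show (z.1.1, z.1.2) ∈ Y from z.2)]
      exact sub_zero _) K (fun γ hγ => rhoR_triv (hKP γ hγ) (hKR γ hγ)) Set.univ
    (fun _ _ _ => trivial) fun z _ γ h =>
      hK _ z.2.1 γ _ (congrArg (·.1.1) h) (congrArg (·.1.2) h) z.2.2
  convert key using 1
  have hm : ∀ x ∈ X', ∀ a, e x a ∈ Submodule.span k {y | ∃ x ∈ X', ∃ a, y = e x a} :=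
    fun x hx a => Submodule.subset_span ⟨x, hx, a, rfl⟩
  refine le_antisymm (fun φ hφ => ?_) (Submodule.span_le.2 ?_)
  · obtain ⟨s, hs⟩ := hc (R →₀ P) fun x => lsingle (q x) ∘ₗ e x
    let t : (R →₀ P) →ₗ[k] P := ⟨⟨tot, map_add _⟩, tot_smul⟩
    have := R_map (LinearMap.id - s ∘ₗ t) (Submodule.span k {y | ∃ z ∈ (Set.univ : Set Y), ∃ a,
      y = e' z a}) (fun r x hx => ?_) hφ.1
    · simpa [t, hφ.2] using this
    · refine (Submodule.mem_comap (f := (LinearMap.id - s ∘ₗ t) ∘ₗ lsingle r)).1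
        (Submodule.span_le.2 ?_ hx)
      rintro _ ⟨x, hx, a, rfl⟩
      by_cases w : r = q x
      · simp [t, hs, w]
      · exact Submodule.subset_span ⟨⟨(x, r), hx, w⟩, trivial, a, by simp [t, hs, e']⟩
  · rintro _ ⟨z, -, a, rfl⟩
    exact ⟨fun r => sub_mem (single_R (hm _ z.2.1 a) _ _) (single_R (hm _ z.2.1 a) _ _),
      by simp [e']⟩

variable {S : Type} [MulAction G S]

lemma bar_projJ (K : Subgroup G) (h1 : ∀ γ ∈ K, ∀ s : S, γ • s = s)
    (h2 : ∀ (γ : G) (s : S), γ • s = s → γ ∈ K) (hKR : ∀ γ ∈ K, ∀ r : R, γ • r = r) (r0 : R)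
    (n : ℕ) : Proj (rhoR R (act k G S)) K (grJ R (gr k S (n + 1))) := by
  let := listAction G S
  have h3 : ∀ l : List S, l.length = n + 1 → ∀ γ : G, γ • l = l → γ ∈ K := fun l hl γ h => by
    obtain ⟨a, l, rfl⟩ := List.exists_cons_of_length_eq_add_one hl
    exact h2 γ a (List.cons.inj h).1
  have h4 : ∀ (γ : G), ∀ l ∈ {l : List S | l.length = n + 1},
      γ • l ∈ {l : List S | l.length = n + 1} := fun γ l hl => (List.length_map _).trans hl
  obtain ⟨q, hq⟩ := exists_equiv r0 _ h4 fun l hl => ⟨r0, fun γ h => hKR γ (h3 l hl γ h) r0⟩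
  refine projJ (Λ := k) (X := List S) (act k G S) (Representation.trivial k G k)
    (fun l => lsingle l) (fun γ l a => act_single γ l a)
    (fun M _ _ φ => ⟨lsum k φ, fun l a => by simp⟩) K (fun γ hγ x => ?_) hKR _ h4 q hq
    fun l hl γ _ h _ _ => h3 l hl γ h
  rw [act_apply, show (fun s : S => γ • s) = id from funext (h1 γ hγ)]
  simp [lmap]

lemma to_exact (Z : Cx k G M) (K : Subgroup G) (h1 : ∀ γ ∈ K, ∀ s : S, γ • s = s)
    (h2 : ∀ (γ : G) (s : S), γ • s = s → γ ∈ K) (hZ : ∀ γ ∈ K, ∀ y, Z.ρ γ y = y) (ex : Z.Exact)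
    {v0 : M} (hv : ∀ γ, Z.ρ γ v0 = v0) (hv0 : v0 ∈ Z.gr 0) (hdv : Z.d v0 = 0) :
    ∃ α : B k S →ₗ[k] M, (∀ γ x, α (act k G S γ x) = Z.ρ γ (α x)) ∧ (∀ x, Z.d (α x) = α (bd x)) ∧
      (∀ n, ∀ x ∈ gr k S n, α x ∈ Z.gr n) ∧ α (single [] 1) = v0 := by
  have h0 : ∀ x, Z.d (linearCombination k (fun _ : List S => v0) x) = 0 :=
    ext_gr (Z.d ∘ₗ linearCombination k fun _ => v0) 0 fun _ _ hx => gr_ext _ _
      (fun l _ => by simp [hdv]) hx
  obtain ⟨α, a0, a1, a2, a3⟩ := extend (bar k G S) Z K hZ 0 0 (fun j => bar_proj _ h1 h2 _) ex 1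
    (fun _ => 0) (by simp) (by simp) (by simp) (linearCombination k fun _ => v0)
    (fun γ x hx => gr_ext (linearCombination k (fun _ => v0) ∘ₗ act k G S γ)
      (Z.ρ γ ∘ₗ linearCombination k fun _ => v0) (fun l _ => by simp [hv]) hx)
    (fun x hx => gr_map _ _ (fun l _ => by simpa using hv0) hx) (fun x hx => by simp [h0])
  simp only [zero_add, LinearMap.zero_apply, one_smul, bar_d, bar_ρ, bar_gr] at a1 a2 a3
  obtain ⟨g, hg⟩ := glue α
  refine ⟨g, fun γ => ext_gr (g ∘ₗ act k G S γ) (Z.ρ γ ∘ₗ g) fun n x hx => ?_,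
    ext_gr (Z.d ∘ₗ g) (g ∘ₗ bd) fun n x hx => ?_, fun n x hx => hg n x hx ▸ a2 n x hx, ?_⟩
  · simp only [LinearMap.comp_apply]
    rw [hg n x hx, hg n _ (act_gr γ hx), a1 n γ x hx]
  · simp only [LinearMap.comp_apply]
    rcases n with _ | n
    · rw [bd_gr_zero hx, hg 0 x hx, a0, h0, map_zero]
    · rw [hg _ x hx, hg n _ (bd_gr hx), a3 n x hx]
  · rw [hg 0 _ (single_mem_gr List.length_nil _), a0, linearCombination_single, one_smul]

end Pool.Agent.Lib.MP_f0c981_al
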