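import Pool.Agent.Lib.MP_f0c981_al.T4.J

/-!
Tensor induction with coefficients that are free over the finite subgroups.
-/

set_option autoImplicit false
set_option maxSynthPendingDepth 3

noncomputable section

namespace Pool.Agent.Lib.MP_f0c981_al

open Function
open Finsupp hiding update update_self update_idem update_comm

variable {k : Type} {G : Type} [Group G] {R S' : Type} [MulAction G R] [MulAction G S']

/-- A short chain map with coefficients. -/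
def FDJ (k G S' R : Type) [CommRing k] [Group G] [MulAction G S'] [MulAction G R] (L : ℕ) : Prop :=
  ∃ Ψ : ℕ → (R →₀ B k G) →ₗ[k] (R →₀ B k S'),
    (∀ m γ, ∀ x ∈ grJ R (gr k G m),
      Ψ m (rhoR R (act k G G) γ x) = rhoR R (act k G S') γ (Ψ m x)) ∧
    (∀ m, ∀ x ∈ grJ R (gr k G m), Ψ m x ∈ grJ R (gr k S' m)) ∧
    (∀ m, ∀ x ∈ grJ R (gr k G (m + 1)), mr bd (Ψ (m + 1) x) = Ψ m (mr bd x)) ∧
    (∀ x ∈ grJ R (gr k G 0), ∀ r, Ψ 0 x r = single [] (x r [])) ∧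
    ∀ m, L < m → ∀ x ∈ grJ R (gr k G m), Ψ m x = 0

/-- A contraction in high degrees, with coefficients. -/
def CJ (k G S R : Type) [CommRing k] [Group G] [MulAction G S] [MulAction G R] (L : ℕ) : Prop :=
  ∃ D : ℕ → (R →₀ B k S) →ₗ[k] (R →₀ B k S),
    (∀ m γ, ∀ x ∈ grJ R (gr k S m),
      D m (rhoR R (act k G S) γ x) = rhoR R (act k G S) γ (D m x)) ∧
    (∀ m, ∀ x ∈ grJ R (gr k S m), D m x ∈ grJ R (gr k S (m + 1))) ∧
    ∀ m, L ≤ m → ∀ x ∈ grJ R (gr k S (m + 1)), x = mr bd (D (m + 1) x) + D m (mr bd x)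

section

variable {I : Type} [Fintype I] [DecidableEq I] [MulAction G I] [Field k] {Λ : Type}
  [AddCommGroup Λ] [Module k Λ] {H S : Type} [Group H] [MulAction H S]
  (C : Cliff k G I Λ) (c : G → I → H) (c1 : ∀ i, c 1 i = 1)
  (c2 : ∀ γ δ i, c (γ * δ) i = c γ (δ • i) * c δ i)

lemma short_T (i0 : I) (s0 : S) {L : ℕ} (hF : FD k H S L) :
    ∃ α : B k G →ₗ[k] TP k S I Λ,
      (∀ γ x, α (act k G G γ x) = (tcx (S := S) C c c1 c2).ρ γ (α x)) ∧
      (∀ x, dT C (α x) = α (bd x)) ∧ (∀ n, ∀ x ∈ gr k G n, α x ∈ grT k S I Λ n) ∧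
      α (single [] 1) = eb (fun _ => []) C.v ∧
      ∀ n, Fintype.card I * L < n → ∀ x ∈ gr k G n, α x = 0 := by
  obtain ⟨f, f1, f2, f3, f4, f5⟩ := hF
  obtain ⟨α, a1, a2, a3, a4⟩ := to_exact (S := G) (tcx (S := S) C c c1 c2) ⊥
    (fun γ hγ s => by rw [Subgroup.mem_bot.1 hγ, one_smul]) (fun γ s h => by simpa using h)
    (fun γ hγ x => by rw [Subgroup.mem_bot.1 hγ, map_one]; rfl) (dT_exact C i0 s0)
    (v0 := eb (fun _ => []) C.v) (fun γ => by
      refine (rhoT_pt C c γ _ _).trans ?_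
      rw [C.τ_v]
      congr 2
      ext1 i
      simp [tw]) (Submodule.subset_span ⟨_, by simp, _, rfl⟩)
    ((dT_pt C _ _).trans (Finset.sum_eq_zero fun i _ => pt_zero i (by simp) _))
  let F : TP k S I Λ →ₗ[k] TP k S I Λ := op (fun _ => f) LinearMap.id
  have F1 : ∀ γ x, F (rhoT C c γ x) = rhoT C c γ (F x) := fun γ =>
    LinearMap.congr_fun (TP_ext (f := F ∘ₗ rhoT C c γ) (g := rhoT C c γ ∘ₗ F) fun y a => by
      simp only [LinearMap.comp_apply, rhoT_pt, F, op_pt, LinearMap.id_apply]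
      congr 2
      ext1 i
      exact f1 _ _)
  have F2 : ∀ x, dT C (F x) = F (dT C x) :=
    LinearMap.congr_fun (TP_ext (f := dT C ∘ₗ F) (g := F ∘ₗ dT C) fun y a => by
      simp only [LinearMap.comp_apply, dT_pt, F, op_pt, LinearMap.id_apply, map_sum]
      refine Finset.sum_congr rfl fun i _ => ?_
      congr 2
      ext1 j
      rcases eq_or_ne j i with rfl | q
      · simp [f2]
      · simp [q])
  refine ⟨F ∘ₗ α, fun γ x => (congrArg F (a1 γ x)).trans (F1 _ _),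
    fun x => (F2 _).trans (congrArg F (a2 x)), fun n x hx => grT_map F _ (fun x a h => ?_)
      (a3 n x hx), ?_, fun n hn x hx => grT_map F ⊥ (fun x a h => ?_) (a3 n x hx)⟩
  · rw [eb, op_pt, ← h]
    exact pt_mem (fun i => f3 _ _ (single_mem_gr rfl _)) _
  · simp [a4, F, eb, op_pt, f4]
  · obtain ⟨i, hi⟩ : ∃ i, L < (x i).length := by
      by_contra q
      push Not at q
      have := Finset.sum_le_card_nsmul Finset.univ (fun i => (x i).length) L fun i _ => q i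
      rw [h, Finset.card_univ, smul_eq_mul] at this
      omega
    rw [eb, op_pt, pt_zero i (f5 _ hi _ (single_mem_gr rfl _))]
    exact zero_mem _

lemma tcx_projJ (hS : ∀ (h : H) (s : S), h • s = s → h = 1)
    (hc : ∀ γ i, γ • i = i → c γ i = 1 → γ = 1) (r0 : R)
    (u1 : ∀ γ : G, IsOfFinOrder γ → ∀ r r' : R, γ • r = r → γ • r' = r' → r ≠ r' → γ = 1)
    (u2 : ∀ P : Subgroup G, (∀ γ ∈ P, IsOfFinOrder γ) → ∃ r : R, ∀ γ ∈ P, γ • r = r) (n : ℕ) :
    Proj (rhoR R (tcx (S := S) C c c1 c2).ρ) ⊥ (grJ R (grT k S I Λ (n + 1))) := by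
  let := famAction (S := S) c c1 c2
  have h3 : ∀ x ∈ {x : I → List S | ∑ i, (x i).length = n + 1}, ∀ γ : G, γ • x = x →
      IsOfFinOrder γ := fun x hx γ h => by
    obtain ⟨i, hi⟩ : ∃ i, x i ≠ [] := by
      by_contra q
      push Not at q
      simp [q] at hx
    obtain ⟨m, hm, h1⟩ := isOfFinOrder_iff_pow_eq_one.1
      (isOfFinOrder_of_finite (MulAction.toPermHom G I γ))
    have h2 : γ ^ m • i = i := by
      rw [← map_pow] at h1
      exact Equiv.congr_fun h1 i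
    have h3 : γ ^ m • x = x := (MulAction.stabilizer G x).pow_mem h m
    have h4 : (x ((γ ^ m)⁻¹ • i)).map (c (γ ^ m) ((γ ^ m)⁻¹ • i) • ·) = x i := congrFun h3 i
    rw [inv_smul_eq_iff.2 h2.symm] at h4
    obtain ⟨s, l, e⟩ := List.exists_cons_of_ne_nil hi
    rw [e] at h4
    exact isOfFinOrder_iff_pow_eq_one.2 ⟨m, hm, hc _ i h2 (hS _ s (List.cons.inj h4).1)⟩
  have h4 : ∀ (γ : G), ∀ x ∈ {x : I → List S | ∑ i, (x i).length = n + 1},
      γ • x ∈ {x : I → List S | ∑ i, (x i).length = n + 1} := fun γ x hx =>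
    Eq.trans (Fintype.sum_equiv (MulAction.toPerm γ⁻¹) _ _ fun i => List.length_map _) hx
  obtain ⟨q, hq⟩ := exists_equiv r0 _ h4 fun x hx => u2 (MulAction.stabilizer G x) (h3 x hx)
  refine projJ (X := I → List S) _ C.τ eb (fun γ x a => ?_) eb_constr ⊥
    (fun γ hγ x => by rw [Subgroup.mem_bot.1 hγ, map_one]; rfl)
    (fun γ hγ x => by rw [Subgroup.mem_bot.1 hγ, one_smul]) _ h4 q hq
    fun x hx γ r e1 e2 e3 => u1 γ (h3 x hx γ e1) _ _ e2 (by rw [← hq γ x hx, e1]) e3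
  refine (rhoT_pt C c γ _ a).trans ?_
  congr 2
  ext1 i
  exact act_single _ _ _

include C c1 c2 in
theorem serreJ (i0 : I) (s0 : S) (hS : ∀ (h : H) (s : S), h • s = s → h = 1)
    (hc : ∀ γ i, γ • i = i → c γ i = 1 → γ = 1) (r0 : R) (s1 : S')
    (u1 : ∀ γ : G, IsOfFinOrder γ → ∀ r r' : R, γ • r = r → γ • r' = r' → r ≠ r' → γ = 1)
    (u2 : ∀ P : Subgroup G, (∀ γ ∈ P, IsOfFinOrder γ) → ∃ r : R, ∀ γ ∈ P, γ • r = r) {L : ℕ}
    (hF : FD k H S L) : FDJ k G S' R (Fintype.card I * L) := by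
  obtain ⟨α, a1, a2, a3, a4, a5⟩ := short_T C c c1 c2 i0 s0 hF
  let T := tcx (S := S) C c c1 c2
  obtain ⟨D0, hD0⟩ := eb_constr (B k S') fun _ : I → List S => lsingle [] ∘ₗ C.lam
  have hD1 : ∀ x ∈ T.gr 0, D0 x ∈ gr k S' 0 := fun x hx =>
    grT_map _ _ (fun x a _ => by rw [hD0]; exact single_mem_gr List.length_nil _) hx
  have hD2 : ∀ γ, ∀ x ∈ T.gr 0, D0 (T.ρ γ x) = act k G S' γ (D0 x) := fun γ x hx =>
    sub_eq_zero.1 (grT_map (D0 ∘ₗ T.ρ γ - act k G S' γ ∘ₗ D0) ⊥ (fun x a _ => by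
      have : T.ρ γ (eb x a) = eb (fun i => (x (γ⁻¹ • i)).map (c γ (γ⁻¹ • i) • ·)) (C.τ γ a) := by
        refine (rhoT_pt C c γ _ a).trans ?_
        congr 2
        ext1 i
        exact act_single _ _ _
      simp [this, hD0, C.lam_τ]) hx)
  obtain ⟨β, b0, b1, b2, b3⟩ := extend (T.J R) ((bar k G S').J R) ⊥
    (fun γ hγ x => by rw [Subgroup.mem_bot.1 hγ, map_one]; rfl) 0 0
    (fun j => tcx_projJ C c c1 c2 hS hc r0 u1 u2 _) ((bar_exact s1).J r0) 1 (fun _ => 0) (by simp)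
    (by simp) (by simp) (mr D0)
    (fun γ x hx => mr_rhoR (hD2 γ) hx.1)
    (fun x hx => mr_J hD1 hx) (fun x hx => by
      ext1 r
      simpa [Cx.J] using bd_gr_zero (hD1 _ (T.d_gr _ _ (hx.1 r))))
  simp only [zero_add, LinearMap.zero_apply, one_smul] at b1 b2 b3
  refine ⟨fun m => β m ∘ₗ mr α, fun m γ x hx => ?_, fun m x hx => b2 m _ (mr_J (a3 m) hx),
    fun m x hx => (b3 m _ (mr_J (a3 _) hx)).trans (congrArg (β m) ?_), fun x hx r => ?_,
    fun m hm x hx => ?_⟩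
  · rw [LinearMap.comp_apply, mr_rhoR (W := ⊤) (fun x _ => a1 γ x) fun _ => trivial]
    exact b1 m γ _ (mr_J (a3 m) hx)
  · ext1 r
    exact a2 _
  · rw [LinearMap.comp_apply, b0, mr_apply, mr_apply, gr_zero_eq (hx.1 r), ← smul_single_one,
      map_smul, map_smul, a4, hD0]
    simp [C.lam_v]
  · rw [LinearMap.comp_apply, show mr α x = 0 from Finsupp.ext fun r => a5 m hm _ (hx.1 r),
      map_zero]

end

theorem contrJ [CommRing k] {t : G} (hc : ∀ γ, γ * t = t * γ) {χ : G → k}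
    (hχ : ∀ a b, χ (a * b) = χ a + χ b) (ht : ¬ IsOfFinOrder t) (h1 : χ t = 1) (s0 : S') (r0 : R)
    (hS : ∀ s : S', t • s = s) (hS' : ∀ (γ : G) (s : S'), γ • s = s → γ ∈ Subgroup.zpowers t)
    (hR : ∀ r : R, t • r = r) {L : ℕ} (hF : FDJ k G S' R L) : CJ k G S' R L := by
  obtain ⟨Ψ, f1, f3, f2, f4, f5⟩ := hF
  have hK : ∀ γ ∈ Subgroup.zpowers t, ∀ s : S', γ • s = s := fun γ hγ s =>
    (Subgroup.zpowers_le.2 (hS s) : _ ≤ MulAction.stabilizer G s) hγ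
  have hKR : ∀ γ ∈ Subgroup.zpowers t, ∀ r : R, γ • r = r := fun γ hγ s =>
    (Subgroup.zpowers_le.2 (hR s) : _ ≤ MulAction.stabilizer G s) hγ
  have hK' : ∀ γ ∈ Subgroup.zpowers t, ∀ y, rhoR R (act k G S') γ y = y := fun γ hγ =>
    rhoR_triv (fun y => by
      rw [act_apply, show (fun s : S' => γ • s) = id from funext (hK γ hγ)]
      simp [lmap]) (hKR γ hγ)
  let Z := zcx (k := k) hc hχ
  choose p p1 p2 p3 using exists_pr (k := k) (G := G) (S := G)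
  let w : ℕ → R → B k G →ₗ[k] (R →₀ B k G) := fun m r => lsingle r ∘ₗ p m - lsingle r0 ∘ₗ p m
  have w1 : ∀ m r x, w m r x ∈ grJ R (gr k G m) := fun m r x => by
    simpa [w] using sub_J (single_R (p1 m x) r) r0
  let Φ : ℕ → (R →₀ B k G ⧸ rel k t) →ₗ[k] (R →₀ B k S') := fun m => lsum k fun r =>
    (rel k t).liftQ (Ψ m ∘ₗ w m r) (by
      rintro _ ⟨x, rfl⟩
      have e : w m r (act k G G t x) = rhoR R (act k G G) t (w m r x) := by simp [w, p3, hR]
      simp [e, f1 m t _ (w1 m r x), hK' t (Subgroup.mem_zpowers t)])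
  have Φ0 : ∀ m, ∀ x ∈ grJ R (gr k G m), Φ m (mr (rel k t).mkQ x) = Ψ m x := fun m x hx => by
    let t' : (R →₀ B k G) →ₗ[k] B k G := ⟨⟨tot, map_add _⟩, tot_smul⟩
    have := R_ext (Φ m ∘ₗ mr (rel k t).mkQ) (Ψ m ∘ₗ (LinearMap.id - lsingle r0 ∘ₗ t'))
      (fun r x hx => by simp [Φ, w, t', p2 m x hx]) hx.1
    simpa [t', hx.2] using this
  have lf : ∀ m, ∀ y ∈ grJ R (Z.gr m), ∃ x ∈ grJ R (gr k G m), mr (rel k t).mkQ x = y :=
    fun m y hy => liftJ r0 _ _ (fun r => by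
      obtain ⟨x, h, e⟩ := hy.1 r
      exact ⟨x, h.1, e⟩) hy.2
  obtain ⟨α, a1, a3, a2, a0⟩ := to_exact (S := S') Z _ hK hS' (fun γ hγ y => by
      have h0 : ∀ y, Z.ρ t y = y := fun y => by
        obtain ⟨x, rfl⟩ := (rel k t).mkQ_surjective y
        exact (Submodule.Quotient.eq _).2 ⟨x, rfl⟩
      have : Subgroup.zpowers t ≤ Z.ρ.ker := Subgroup.zpowers_le.2 (LinearMap.ext h0)
      rw [this hγ]
      rfl) (zcx_exact hc hχ ht h1) (v0 := (rel k t).mkQ (single [] 1))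
    (fun γ => congrArg (rel k t).mkQ (act_single γ [] 1))
    ⟨_, ⟨single_mem_gr List.length_nil _, by simp⟩, rfl⟩
    ((congrArg (rel k t).mkQ (bd_nil 1)).trans (map_zero _))
  let Θ : ℕ → (R →₀ B k S') →ₗ[k] (R →₀ B k S') := fun m => Φ m ∘ₗ mr α
  have Θ0 : ∀ m, ∀ y ∈ grJ R (gr k S' m), ∃ x ∈ grJ R (gr k G m),
      mr (rel k t).mkQ x = mr α y ∧ Θ m y = Ψ m x := fun m y hy => by
    obtain ⟨x, hx, e⟩ := lf m _ (mr_J (a2 m) hy)
    exact ⟨x, hx, e, by rw [← Φ0 m x hx, e]; rfl⟩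
  have Θ1 : ∀ m γ, ∀ y ∈ grJ R (gr k S' m),
      Θ m (rhoR R (act k G S') γ y) = rhoR R (act k G S') γ (Θ m y) := fun m γ y hy => by
    obtain ⟨x, hx, e, e'⟩ := Θ0 m y hy
    rw [e', ← f1 m γ x hx, ← Φ0 m _ (rhoR_J (fun _ => act_gr γ) hx),
      mr_rhoR (W := ⊤) (ρ' := Z.ρ) (f := (rel k t).mkQ) (ρ := act k G G) (fun _ _ => rfl)
        fun _ => trivial, e,
      ← mr_rhoR (W := ⊤) (fun x _ => a1 γ x) fun _ => trivial]
    rfl
  have Θ2 : ∀ m, ∀ y ∈ grJ R (gr k S' (m + 1)), mr bd (Θ (m + 1) y) = Θ m (mr bd y) :=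
    fun m y hy => by
    obtain ⟨x, hx, e, e'⟩ := Θ0 _ y hy
    rw [e', f2 m x hx, ← Φ0 m _ (mr_J (fun _ => bd_gr) hx)]
    refine congrArg (Φ m) (Finsupp.ext fun r => ?_)
    rw [mr_apply, mr_apply, mr_apply, mr_apply, ← a3, ← mr_apply α, ← e]
    rfl
  have Θ4 : ∀ y ∈ grJ R (gr k S' 0), Θ 0 y = y := fun y hy => by
    have h2 : mr (lmap fun _ => (1 : G)) y ∈ grJ R (gr k G 0) := mr_J (fun _ => lmap_gr _) hy
    have e : mr (rel k t).mkQ (mr (lmap fun _ => (1 : G)) y) = mr α y := Finsupp.ext fun r => by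
      rw [mr_apply, mr_apply, mr_apply, gr_zero_eq (hy.1 r), ← smul_single_one, map_smul,
        map_smul, map_smul, a0, lmap_single]
      rfl
    ext1 r
    rw [show Θ 0 y = _ from (congrArg (Φ 0) e.symm).trans (Φ0 0 _ h2), f4 _ h2, mr_apply,
      gr_zero_eq (hy.1 r)]
    simp
  obtain ⟨D, d0, d1, d2, d3⟩ := extend ((bar k G S').J R) ((bar k G S').J R) _ hK' 0 1
    (fun j => bar_projJ _ hK hS' hKR r0 _) ((bar_exact s0).J r0) (-1)
    (fun j => LinearMap.id - Θ (j + 1))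
    (fun j γ x hx => by
      rw [zero_add] at hx
      simp [Cx.J, Θ1 _ γ x hx])
    (fun j x hx => by
      rw [zero_add] at hx
      rw [add_comm]
      obtain ⟨y, hy, -, e⟩ := Θ0 _ x hx
      exact sub_mem hx (e ▸ f3 _ y hy))
    (fun j x hx => by
      rw [zero_add] at hx
      simp [Cx.J, Θ2 _ x hx])
    0 (by simp) (by simp) (fun x hx => by
      simp [Cx.J, Θ2 0 x hx, Θ4 _ (mr_J (fun _ => bd_gr) hx)])
  simp only [zero_add, add_comm 1] at d1 d2 d3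
  refine ⟨D, d1, d2, fun m hm x hx => ?_⟩
  obtain ⟨y, hy, -, e⟩ := Θ0 _ x hx
  have := d3 m x hx
  rw [LinearMap.sub_apply, e, f5 _ (by omega) y hy] at this
  simp only [Cx.J, bar_d] at this
  simp [this]

end Pool.Agent.Lib.MP_f0c981_al
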