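import Pool.Agent.Lib.MP_f0c981_al.T4.Key

/-!
Cocycles that vanish on `p`-adic cycles, and the descent to the stabilizers.
-/

set_option autoImplicit false
set_option maxSynthPendingDepth 3

noncomputable section

namespace Pool.Agent.Lib.MP_f0c981_al

open Finsupp

variable {N N' R : Type} [Group N] [Group N'] {A : Subgroup N} {p n : ℕ} {q : ℤ}
  {Φ Φ' Ψ : B ℤ N →ₗ[ℤ] ℤ}

/-- The relations of the coinvariants modulo `q`. -/
def Rl (A : Subgroup N) (q : ℤ) : Submodule ℤ (B ℤ N) :=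
  Submodule.span ℤ {y | (∃ γ ∈ A, ∃ u, y = act ℤ N N γ u - u) ∨ ∃ u, y = q • u}

lemma Rl_act {γ : N} (h : γ ∈ A) (u : B ℤ N) : act ℤ N N γ u - u ∈ Rl A q :=
  Submodule.subset_span (.inl ⟨γ, h, u, rfl⟩)

lemma Rl_smul (u : B ℤ N) : q • u ∈ Rl A q := Submodule.subset_span (.inr ⟨u, rfl⟩)

lemma Rl_map {M : Type} [AddCommGroup M] [Module ℤ M] (f : B ℤ N →ₗ[ℤ] M) (U : Submodule ℤ M)
    (h1 : ∀ γ ∈ A, ∀ u, f (act ℤ N N γ u) - f u ∈ U) (h2 : ∀ u, f (q • u) ∈ U) {x : B ℤ N}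
    (hx : x ∈ Rl A q) : f x ∈ U := by
  refine (Submodule.mem_comap (f := f)).1 (Submodule.span_le.2 ?_ hx)
  rintro _ (⟨γ, h, u, rfl⟩ | ⟨u, rfl⟩)
  exacts [by simpa using h1 γ h u, h2 u]

/-- The cochain vanishes on all `p`-adic cycles of degree `n` of the coinvariants. -/
def Van (p : ℕ) (A : Subgroup N) (n : ℕ) (Φ : B ℤ N →ₗ[ℤ] ℤ) : Prop :=
  ∀ x : ℕ → B ℤ N, (∀ s, x s ∈ gr ℤ N n) → (∀ s, bd (x s) ∈ Rl A (p ^ s)) →
    (∀ s, ∃ u, x (s + 1) = x s + (p : ℤ) ^ s • u) → ∀ s, (p : ℤ) ^ s ∣ Φ (x s)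

lemma Van.coh (h : Van p A n Φ') (hp : p ≠ 0) (hΨ : Inv A Ψ) {j : ℕ}
    (e : ∀ x ∈ gr ℤ N n, Φ' x = p ^ j * Φ x + Ψ (bd x)) : Van p A n Φ := by
  intro x x1 x2 x3 s
  have h1 : ∀ i, (p : ℤ) ^ s ∣ Φ (x (s + i)) - Φ (x s) := fun i => by
    induction i with
    | zero => simp
    | succ i ih =>
      obtain ⟨u, hu⟩ := x3 (s + i)
      rw [← add_assoc, hu, map_add, map_smul, add_sub_right_comm, pow_add, smul_eq_mul, mul_assoc]
      exact ih.add (dvd_mul_right _ _)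
  have h2 := h x x1 x2 x3 (s + j)
  have h3 : (p : ℤ) ^ (s + j) ∣ Ψ (bd (x (s + j))) := Ideal.mem_span_singleton.1
    (Rl_map Ψ _ (fun γ hγ u => by simp [hΨ γ hγ]) (fun u => Ideal.mem_span_singleton.2 (by
      rw [map_smul]
      exact dvd_mul_right _ _)) (x2 _))
  rw [e _ (x1 _), dvd_add_left h3, pow_add, mul_comm,
    mul_dvd_mul_iff_left (by positivity)] at h2
  exact (dvd_sub_right h2).1 (h1 j)

lemma Van.comap {Φ : B ℤ N' →ₗ[ℤ] ℤ} (h : Van p ⊤ n Φ) (f : N → N')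
    (hf : ∀ γ ∈ A, ∃ γ', ∀ x, f (γ * x) = γ' * f x) : Van p A n (Φ ∘ₗ lmap f) :=
  fun x x1 x2 x3 => h (fun s => lmap f (x s)) (fun s => lmap_gr _ (x1 s)) (fun s => by
    rw [bd_lmap]
    refine Rl_map (lmap f) _ (fun γ hγ u => ?_) (fun u => ?_) (x2 s)
    · obtain ⟨γ', e⟩ := hf γ hγ
      convert Rl_act (Subgroup.mem_top γ') (lmap f u) using 2
      exact ext_gr (lmap f ∘ₗ act ℤ N N γ) (act ℤ N' N' γ' ∘ₗ lmap f)
        (fun _ _ hx => gr_ext _ _ (fun l _ => by simp [Function.comp_def, e]) hx) u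
    · rw [map_smul]
      exact Rl_smul _) fun s => by
    obtain ⟨u, e⟩ := x3 s
    exact ⟨lmap f u, by rw [e, map_add, map_smul]⟩

lemma van_triv (hA : ∀ γ ∈ A, γ = 1) (h : ∀ x ∈ gr ℤ N (n + 2), Φ (bd x) = 0) :
    Van p A (n + 1) Φ := fun x x1 x2 _ s => by
  have e := congrArg Φ (bd_cons 1 (x s))
  rw [h _ (cons_gr _ (x1 s)), map_sub, eq_comm, sub_eq_zero] at e
  rw [e]
  exact Ideal.mem_span_singleton.1 (Rl_map (Φ ∘ₗ cons 1) _ (fun γ hγ u => by simp [hA γ hγ])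
    (fun u => Ideal.mem_span_singleton.2 (by
      rw [map_smul]
      exact dvd_mul_right _ _)) (x2 s))

lemma Proj.lift {k G P M Q : Type} [CommRing k] [Group G] [AddCommGroup P] [Module k P]
    [AddCommGroup M] [Module k M] [AddCommGroup Q] [Module k Q] {ρ : Representation k G P}
    {W : Submodule k P} (h : Proj ρ ⊥ W) (σ : Representation k G M) (W' : Submodule k M)
    (h1 : ∀ γ, ∀ x ∈ W, ρ γ x ∈ W) (h2 : ∀ γ, ∀ x ∈ W', σ γ x ∈ W') (f : P →ₗ[k] Q)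
    (g : M →ₗ[k] Q) (h3 : ∀ γ, ∀ x ∈ W, ∀ y, g y = f x → g (σ γ y) = f (ρ γ x))
    (h4 : ∀ x ∈ W, ∃ y ∈ W', g y = f x) : ∃ θ : P →ₗ[k] M,
      (∀ γ, ∀ x ∈ W, θ (ρ γ x) = σ γ (θ x)) ∧ ∀ x ∈ W, θ x ∈ W' ∧ g (θ x) = f x := by
  obtain ⟨θ, a, b⟩ := h M σ (fun γ hγ x => by rw [Subgroup.mem_bot.1 hγ, map_one]; rfl)
    (W.prod W' ⊓ LinearMap.eqLocus (g ∘ₗ LinearMap.snd k P M) (f ∘ₗ LinearMap.fst k P M))
    (fun γ x y e => ⟨⟨h1 γ x e.1.1, h2 γ y e.1.2⟩, h3 γ x e.1.1 y e.2⟩) fun x hx => by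
      obtain ⟨y, a, b⟩ := h4 x hx
      exact ⟨y, ⟨hx, a⟩, b⟩
  exact ⟨θ, a, fun x hx => ⟨(b x hx).1.2, (b x hx).2⟩⟩

/-- The truncated geometric series. -/
def geo {k Y : Type} [CommRing k] [AddCommGroup Y] [Module k Y] (q : k) (D E : Module.End k Y)
    (s : ℕ) : Module.End k Y := ∑ i ∈ Finset.range s, q ^ i • (D * E ^ i)

section geo

variable {k Y : Type} [CommRing k] [AddCommGroup Y] [Module k Y] {d D D' E E' ρ : Module.End k Y}
  {J J' : Submodule k Y} {q : k} (h1 : ∀ x ∈ J, E x ∈ J)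

lemma geo_succ (s : ℕ) (x : Y) : geo q D E (s + 1) x = geo q D E s x + q ^ s • D ((E ^ s) x) := by
  simp [geo, Finset.sum_range_succ]

include h1

lemma pow_J (s : ℕ) : ∀ x ∈ J, (E ^ s) x ∈ J := by
  induction s with
  | zero => exact fun _ h => h
  | succ s ih => exact fun x h => by rw [pow_succ]; exact ih _ (h1 x h)

lemma pow_comm (h : ∀ x ∈ J, d (E x) = E' (d x)) (s : ℕ) :
    ∀ x ∈ J, d ((E ^ s) x) = (E' ^ s) (d x) := by
  induction s with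
  | zero => exact fun _ _ => rfl
  | succ s ih =>
    intro x hx
    rw [pow_succ, pow_succ, Module.End.mul_apply, ih _ (h1 x hx), h x hx, Module.End.mul_apply]

lemma geo_J (h : ∀ x ∈ J, D x ∈ J') (s : ℕ) {x : Y} (hx : x ∈ J) : geo q D E s x ∈ J' := by
  induction s with
  | zero => simp [geo]
  | succ s ih => exact geo_succ (E := E) s x ▸ add_mem ih (J'.smul_mem _ (h _ (pow_J h1 s x hx)))

lemma geo_rho (h : ∀ x ∈ J, D (ρ x) = ρ (D x)) (h' : ∀ x ∈ J, E (ρ x) = ρ (E x)) (s : ℕ) {x : Y}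
    (hx : x ∈ J) : geo q D E s (ρ x) = ρ (geo q D E s x) := by
  induction s with
  | zero => simp [geo]
  | succ s ih =>
    rw [geo_succ, geo_succ, ih, map_add, map_smul, ← h _ (pow_J h1 s x hx),
      pow_comm h1 (fun x hx => (h' x hx).symm) s x hx]

lemma geo_d (h2 : ∀ x ∈ J, q • E x = x - d (D x) - D' (d x)) (h3 : ∀ x ∈ J, d (E x) = E' (d x))
    (s : ℕ) {x : Y} (hx : x ∈ J) :
    d (geo q D E s x) + geo q D' E' s (d x) = x - q ^ s • (E ^ s) x := by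
  induction s with
  | zero => simp [geo]
  | succ s ih =>
    rw [geo_succ, geo_succ, map_add, map_smul, add_add_add_comm, ih, pow_succ' E,
      Module.End.mul_apply, pow_succ q, mul_smul, h2 _ (pow_J h1 s x hx), pow_comm h1 h3 s x hx]
    simp only [smul_sub]
    abel

end geo

/-- Reduction modulo `p`. -/
def rd (p : ℕ) (N : Type) : B ℤ N →ₗ[ℤ] B (ZMod p) N :=
  ⟨⟨red (Int.castRingHom _), map_add _⟩, map_zsmul _⟩

omit [Group N] in
lemma rd_surj {y : B (ZMod p) N} (h : y ∈ gr _ N n) : ∃ x ∈ gr ℤ N n, rd p N x = y :=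
  gr_induction (p := fun y => ∃ x ∈ gr ℤ N n, rd p N x = y) h ⟨0, zero_mem _, map_zero _⟩
    (fun _ _ ⟨x, a, b⟩ ⟨y, c, d⟩ => ⟨x + y, add_mem a c, by rw [map_add, b, d]⟩) fun l r hl => by
      obtain ⟨r, rfl⟩ := ZMod.intCast_surjective r
      exact ⟨_, single_mem_gr hl r, red_single _ _ _⟩

omit [Group N] in
lemma rd_ker {x : B ℤ N} (h : x ∈ gr ℤ N n) (e : rd p N x = 0) :
    ∃ w ∈ gr ℤ N n, ((p : ℤ) • LinearMap.id : B ℤ N →ₗ[ℤ] B ℤ N) w = x := by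
  refine ⟨x.sum fun l a => single l (a / p), Submodule.sum_mem _ fun l hl =>
    single_mem_gr (by_contra fun q => mem_support_iff.1 hl (gr_length h q)) _, ?_⟩
  rw [map_finsuppSum]
  refine (sum_congr fun l _ => ?_).trans x.sum_single
  have : (p : ℤ) ∣ x l := (ZMod.intCast_zmod_eq_zero_iff_dvd _ _).1
    ((red_apply (Int.castRingHom (ZMod p)) x l).symm.trans (DFunLike.congr_fun e l))
  simp [Int.mul_ediv_cancel' this]

variable [MulAction N R]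

lemma lift_CJ (hp : p ≠ 0) (r0 : R) {m : ℕ} (h : CJ (ZMod p) N N R (m + 1)) :
    ∃ H H' : ℕ → Module.End ℤ (R →₀ B ℤ N),
      (∀ s γ, ∀ x ∈ grJ R (gr ℤ N (m + 2)),
        H' s (rhoR R (act ℤ N N) γ x) = rhoR R (act ℤ N N) γ (H' s x)) ∧
      (∀ s x, ∃ u, H (s + 1) x = H s x + (p : ℤ) ^ s • u) ∧
      ∀ s, ∀ x ∈ grJ R (gr ℤ N (m + 3)), H s x ∈ grJ R (gr ℤ N (m + 4)) ∧
        ∃ u, mr bd (H s x) + H' s (mr bd x) = x - (p : ℤ) ^ s • u := by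
  obtain ⟨D, d1, d2, d3⟩ := h
  have pr := fun i => bar_projJ (k := ℤ) (S := N) (⊥ : Subgroup N)
    (fun γ hγ s => by rw [Subgroup.mem_bot.1 hγ, one_smul]) (fun γ s h => by simpa using h)
    (fun γ hγ s => by rw [Subgroup.mem_bot.1 hγ, one_smul]) r0 i
  have r1 : ∀ i, ∀ x ∈ grJ R (gr ℤ N i), mr (rd p N) x ∈ grJ R (gr (ZMod p) N i) := fun i x hx =>
    ⟨fun r => red_gr _ (hx.1 r), by rw [tot_mr, hx.2, map_zero]⟩
  have r2 : ∀ γ (x : R →₀ B ℤ N), mr (rd p N) (rhoR R (act ℤ N N) γ x) =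
      rhoR R (act _ N N) γ (mr (rd p N) x) := fun γ x => by
    induction x using Finsupp.induction_linear with
    | zero => simp
    | add x y h1 h2 => simp only [map_add, h1, h2]
    | single r x =>
      simp only [rhoR_single, mr_single]
      exact congrArg _ (red_lmap _ _ _)
  have r3 : ∀ x : R →₀ B ℤ N, mr (rd p N) (mr bd x) = mr bd (mr (rd p N) x) := fun x =>
    Finsupp.ext fun r => red_bd _ _
  have r4 : ∀ γ (x : R →₀ B ℤ N), mr bd (rhoR R (act ℤ N N) γ x) =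
      rhoR R (act ℤ N N) γ (mr bd x) := ((bar ℤ N N).J R).ρ_d
  have r5 : ∀ i γ, ∀ x ∈ grJ R (gr ℤ N i), rhoR R (act ℤ N N) γ x ∈ grJ R (gr ℤ N i) :=
    fun i γ => ((bar ℤ N N).J R).ρ_gr γ i
  have r6 : ∀ i, ∀ x ∈ grJ R (gr ℤ N (i + 1)), mr bd x ∈ grJ R (gr ℤ N i) :=
    ((bar ℤ N N).J R).d_gr
  choose F f1 f2 using fun i => (pr i).lift (rhoR R (act ℤ N N)) (grJ R (gr ℤ N (i + 2))) (r5 _)
    (r5 _) ((D (i + 1)).toAddMonoidHom.toIntLinearMap ∘ₗ mr (rd p N)) (mr (rd p N))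
    (fun γ x hx y e => by
      rw [r2, e]
      exact ((congrArg (D _) (r2 γ x)).trans (d1 _ γ _ (r1 _ x hx))).symm)
    fun x hx => liftJ r0 _ _ (fun r => rd_surj ((d2 _ _ (r1 _ x hx)).1 r)) (d2 _ _ (r1 _ x hx)).2
  have pe := fun i (hi : m ≤ i) => (pr (i + 1)).lift (rhoR R (act ℤ N N))
    (grJ R (gr ℤ N (i + 2))) (r5 _) (r5 _) (LinearMap.id - mr bd ∘ₗ F (i + 1) - F i ∘ₗ mr bd)
    (mr ((p : ℤ) • LinearMap.id : B ℤ N →ₗ[ℤ] B ℤ N)) (fun γ x hx y e => by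
      rw [mr_rhoR (W := ⊤) (ρ' := act ℤ N N) (fun _ _ => by simp) fun _ => trivial, e]
      simp [r4, f1 _ γ x hx, f1 _ γ _ (r6 _ x hx)]) fun x hx => by
      have a1 : x - mr bd (F (i + 1) x) - F i (mr bd x) ∈ grJ R (gr ℤ N (i + 2)) :=
        sub_mem (sub_mem hx (r6 _ _ (f2 _ x hx).1)) (f2 _ _ (r6 _ x hx)).1
      have a2 : mr (rd p N) (x - mr bd (F (i + 1) x) - F i (mr bd x)) = 0 := by
        rw [map_sub, map_sub, r3, (f2 _ x hx).2, (f2 _ _ (r6 _ x hx)).2, sub_sub, sub_eq_zero,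
          LinearMap.comp_apply, LinearMap.comp_apply, r3]
        exact d3 _ (by omega) _ (r1 _ x hx)
      exact liftJ r0 _ _ (fun r => rd_ker (a1.1 r) (DFunLike.congr_fun a2 r)) a1.2
  obtain ⟨E, e1, e2⟩ := pe (m + 1) (by omega)
  obtain ⟨E', e3, e4⟩ := pe m le_rfl
  have r7 : ∀ x : R →₀ B ℤ N, mr ((p : ℤ) • LinearMap.id : B ℤ N →ₗ[ℤ] B ℤ N) x = (p : ℤ) • x :=
    fun x => Finsupp.ext fun r => mr_apply _ _ _
  simp only [r7, LinearMap.sub_apply, LinearMap.comp_apply, LinearMap.id_apply] at e2 e4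
  refine ⟨geo p (F (m + 2)) E, geo p (F (m + 1)) E', fun s γ x hx =>
    geo_rho (fun x hx => (e4 x hx).1) (f1 _ γ) (e3 γ) s hx, fun s x => ⟨_, geo_succ s x⟩,
    fun s x hx => ⟨geo_J (fun x hx => (e2 x hx).1) (fun x hx => (f2 _ x hx).1) s hx, _,
      geo_d (fun x hx => (e2 x hx).1) (fun x hx => (e2 x hx).2) (fun x hx => ?_) s hx⟩⟩
  have dd : ∀ x : R →₀ B ℤ N, mr bd (mr bd x) = 0 := ((bar ℤ N N).J R).dd
  refine smul_right_injective _ (Int.natCast_ne_zero.2 hp) ?_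
  beta_reduce
  rw [← map_smul, (e2 x hx).2, (e4 _ (r6 _ x hx)).2]
  simp [dd]

theorem van_desc (hp : p ≠ 0) (r0 : R) {m : ℕ} (h : CJ (ZMod p) N N R (m + 1)) (hΦ : Inv ⊤ Φ)
    (hR : ∀ r : R, Van p (MulAction.stabilizer N r) (m + 4) Φ) : Van p ⊤ (m + 4) Φ := by
  classical
  obtain ⟨H, H', h1, h2, h3⟩ := lift_CJ hp r0 h
  let σ : B ℤ N →ₗ[ℤ] (R →₀ B ℤ N) :=
    linearCombination ℤ fun l => single (l.headD 1 • r0) (single l 1)
  have s1 : ∀ x, tot (σ x) = x := ext_gr (⟨⟨tot, map_add _⟩, tot_smul⟩ ∘ₗ σ) LinearMap.id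
    fun _ _ hx => gr_ext _ _ (fun l _ => by simp [σ]) hx
  have s2 : ∀ i, ∀ x ∈ gr ℤ N i, ∀ r, σ x r ∈ gr ℤ N i := fun i x hx r =>
    gr_map (lapply r ∘ₗ σ) _ (fun l hl => by simpa [σ] using single_R (single_mem_gr hl 1) _ r) hx
  have s3 : ∀ i γ, ∀ x ∈ gr ℤ N (i + 1), σ (act ℤ N N γ x) = rhoR R (act ℤ N N) γ (σ x) :=
    fun i γ x hx => gr_ext (σ ∘ₗ act ℤ N N γ) (rhoR R (act ℤ N N) γ ∘ₗ σ) (fun l hl => by
      obtain ⟨a, l, rfl⟩ := List.exists_cons_of_length_eq_add_one hl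
      simp [σ, mul_smul]) hx
  let δ : B ℤ N →ₗ[ℤ] (R →₀ B ℤ N) := mr bd ∘ₗ σ - σ ∘ₗ bd
  have s4 : ∀ i, ∀ x ∈ gr ℤ N (i + 1), δ x ∈ grJ R (gr ℤ N i) := fun i x hx =>
    ⟨fun r => sub_mem (bd_gr (s2 _ x hx r)) (s2 _ _ (bd_gr hx) r), by simp [δ, tot_mr, s1]⟩
  have dd : ∀ x : R →₀ B ℤ N, mr bd (mr bd x) = 0 := ((bar ℤ N N).J R).dd
  have r4 : ∀ γ (x : R →₀ B ℤ N), mr bd (rhoR R (act ℤ N N) γ x) =
      rhoR R (act ℤ N N) γ (mr bd x) := ((bar ℤ N N).J R).ρ_d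
  obtain ⟨pr, p1, p2, p3⟩ := exists_pr (k := ℤ) (G := N) (S := N) (m + 3)
  let o : R → R := fun x => (Quotient.mk (MulAction.orbitRel N R) x).out
  have ho : ∀ x, ∃ γ : N, γ • o x = x := fun x =>
    (MulAction.orbitRel N R).symm (Quotient.mk_out (s := MulAction.orbitRel N R) x)
  choose g hg using ho
  have eo : ∀ (γ : N) r, o (γ • r) = o r := fun γ r =>
    congrArg Quotient.out (Quotient.sound (s := MulAction.orbitRel N R) ⟨γ, rfl⟩)
  let sh : (R →₀ B ℤ N) →ₗ[ℤ] (R →₀ B ℤ N) := lsum ℤ fun r => lsingle (o r) ∘ₗ act ℤ N N (g r)⁻¹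
  have t0 : ∀ r u, sh (single r u) = single (o r) (act ℤ N N (g r)⁻¹ u) := fun r u => by simp [sh]
  have t1 : ∀ y, Φ (tot (sh y)) = Φ (tot y) := fun y => by
    induction y using Finsupp.induction_linear with
    | zero => simp
    | add x y h1 h2 => simp only [map_add, h1, h2]
    | single r u => simp [t0, hΦ _ trivial]
  have t2 : ∀ y, mr bd (sh y) = sh (mr bd y) := fun y =>
    R_ext (W := ⊤) (mr bd ∘ₗ sh) (sh ∘ₗ mr bd) (fun r u _ => by simp [t0, act_apply, bd_lmap])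
      fun _ => trivial
  have t3 : ∀ q a γ y, sh (rhoR R (act ℤ N N) γ y) a - sh y a ∈
      Rl (MulAction.stabilizer N a) q := fun q a γ y =>
    R_map (W := ⊤) (lapply a ∘ₗ sh ∘ₗ rhoR R (act ℤ N N) γ - lapply a ∘ₗ sh) _ (fun r u _ => by
      simp only [LinearMap.sub_apply, LinearMap.comp_apply, rhoR_single, t0, eo, lapply_apply,
        single_apply]
      split_ifs with e
      · have := Rl_act (A := MulAction.stabilizer N a) (q := q) (γ := (g (γ • r))⁻¹ * γ * g r) (by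
          rw [MulAction.mem_stabilizer_iff, ← e, mul_smul, mul_smul, hg, inv_smul_eq_iff, ← eo γ,
            hg]) (act ℤ N N (g r)⁻¹ u)
        simpa only [← Module.End.mul_apply, ← map_mul, mul_inv_cancel_right] using this
      · simp) fun _ => trivial
  intro x x1 x2 x3 s
  let y : ℕ → R →₀ B ℤ N := fun s => σ (x s) - H s (δ (x s))
  have y1 : Φ (x s) = Φ (tot (sh (y s))) := by
    rw [t1, map_sub, s1, (h3 s _ (s4 _ _ (x1 s))).1.2, sub_zero]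
  rw [y1, ← (sh (y s)).sum_single, map_finsuppSum, map_finsuppSum]
  refine Finset.dvd_sum fun a _ => ?_
  beta_reduce
  rw [tot_single]
  refine hR a (fun s => sh (y s) a) (fun s => R_map (lapply a ∘ₗ sh) _ (fun r u hu => ?_)
    fun r => sub_mem (s2 _ _ (x1 s) r) ((h3 s _ (s4 _ _ (x1 s))).1.1 r)) (fun s => ?_)
    (fun s => ?_) s
  · simpa [t0] using single_R (act_gr _ hu) _ a
  · obtain ⟨u, e⟩ := (h3 s _ (s4 _ _ (x1 s))).2
    have e1 : mr bd (y s) = ((σ - H' s ∘ₗ δ) ∘ₗ pr) (bd (x s)) + (p : ℤ) ^ s • u := by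
      have e2 : mr bd (δ (x s)) = -δ (bd (x s)) := by simp [δ, dd, bd_bd]
      rw [e2, map_neg] at e
      simp only [y, map_sub, LinearMap.comp_apply, p2 _ (bd_gr (x1 s)), LinearMap.sub_apply,
        eq_sub_of_add_eq e]
      simp only [δ, LinearMap.comp_apply, LinearMap.sub_apply]
      abel
    rw [← mr_apply (k := ℤ) (M := B ℤ N) bd, t2, e1, map_add, map_smul]
    refine add_mem (Rl_map (lapply a ∘ₗ sh ∘ₗ (σ - H' s ∘ₗ δ) ∘ₗ pr) _ (fun γ _ u => ?_)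
      (fun u => ?_) (x2 s)) (Rl_smul _)
    · have e3 : δ (act ℤ N N γ (pr u)) = rhoR R (act ℤ N N) γ (δ (pr u)) := by
        simp only [δ, LinearMap.comp_apply, LinearMap.sub_apply, map_sub, s3 _ γ _ (p1 u), r4,
          ← s3 _ γ _ (bd_gr (p1 u))]
        rw [act_apply, bd_lmap, act_apply]
      simp only [LinearMap.comp_apply, LinearMap.sub_apply, p3, lapply_apply, e3, s3 _ γ _ (p1 u),
        h1 s γ _ (s4 _ _ (p1 u)), ← map_sub (rhoR R (act ℤ N N) γ)]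
      exact t3 _ a γ _
    · rw [map_smul]
      exact Rl_smul _
  · obtain ⟨u, e⟩ := x3 s
    obtain ⟨v, e'⟩ := h2 s (δ (x (s + 1)))
    refine ⟨sh (σ u - H s (δ u) - v) a, ?_⟩
    simp only [y, e']
    simp only [e, map_add, map_smul, map_sub, Finsupp.add_apply, Finsupp.sub_apply,
      Finsupp.smul_apply, smul_sub]
    abel

end Pool.Agent.Lib.MP_f0c981_al
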